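import Mathlib

namespace Pool.Agent.H96Perc

open Nat

variable {a : ℕ}

/-- forward averaging operator -/
noncomputable def Tp (f : (Fin a → ℤ) → ℝ) : (Fin a → ℤ) → ℝ :=
  fun v => (∑ i : Fin a, f (v + Pi.single i 1)) / a

/-- backward averaging operator -/
noncomputable def Tm (f : (Fin a → ℤ) → ℝ) : (Fin a → ℤ) → ℝ :=
  fun v => (∑ i : Fin a, f (v - Pi.single i 1)) / a

noncomputable def del0 : (Fin a → ℤ) → ℝ := fun v => if v = 0 then 1 else 0

/-- the probability that the difference walk started at `v` is at `0` at time `n` -/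
noncomputable def Pr (n : ℕ) : (Fin a → ℤ) → ℝ := (Tp ∘ Tm)^[n] del0

/-- truncated Green function -/
noncomputable def G (N : ℕ) (v : Fin a → ℤ) : ℝ := ∑ n ∈ Finset.range N, Pr n v

lemma Pr_zero (v : Fin a → ℤ) : Pr 0 v = if v = 0 then 1 else 0 := rfl

lemma Pr_succ (n : ℕ) (v : Fin a → ℤ) :
    Pr (n + 1) v = (∑ i : Fin a, ∑ j : Fin a, Pr n (v + Pi.single i 1 - Pi.single j 1)) / a / a := by
  unfold Pr
  rw [Function.iterate_succ_apply']
  simp only [Function.comp, Tp, Tm]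
  rw [Finset.sum_div, Finset.sum_div, Finset.sum_div]

lemma commute_Tp_Tm : Function.Commute (Tp (a := a)) (Tm (a := a)) := by
  intro f
  funext v
  simp only [Tp, Tm]
  rw [← Finset.sum_div, ← Finset.sum_div, Finset.sum_comm]
  congr 2
  refine Finset.sum_congr rfl fun i _ => Finset.sum_congr rfl fun j _ => ?_
  congr 1
  abel

lemma Tm_le {f : (Fin a → ℤ) → ℝ} {B : ℝ} (hB : 0 ≤ B) (h : ∀ v, f v ≤ B) (v : Fin a → ℤ) :
    Tm f v ≤ B := by
  unfold Tm
  rcases Nat.eq_zero_or_pos a with h0 | h0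
  · subst h0; simpa using hB
  · rw [div_le_iff₀ (by positivity)]
    calc ∑ i : Fin a, f (v - Pi.single i 1) ≤ ∑ _i : Fin a, B := Finset.sum_le_sum fun i _ => h _
      _ = B * a := by simp [mul_comm]

lemma Tp_le {f : (Fin a → ℤ) → ℝ} {B : ℝ} (hB : 0 ≤ B) (h : ∀ v, f v ≤ B) (v : Fin a → ℤ) :
    Tp f v ≤ B := by
  unfold Tp
  rcases Nat.eq_zero_or_pos a with h0 | h0
  · subst h0; simpa using hB
  · rw [div_le_iff₀ (by positivity)]
    calc ∑ i : Fin a, f (v + Pi.single i 1) ≤ ∑ _i : Fin a, B := Finset.sum_le_sum fun i _ => h _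
      _ = B * a := by simp [mul_comm]

lemma iter_le {T : ((Fin a → ℤ) → ℝ) → ((Fin a → ℤ) → ℝ)} {B : ℝ}
    (hT : ∀ f : (Fin a → ℤ) → ℝ, (∀ v, f v ≤ B) → ∀ v, T f v ≤ B)
    (f : (Fin a → ℤ) → ℝ) (h : ∀ v, f v ≤ B) (n : ℕ) : ∀ v, T^[n] f v ≤ B := by
  induction n generalizing f with
  | zero => exact h
  | succ n ih =>
    rw [Function.iterate_succ]
    exact ih (T f) (hT f h)

/-- if the forward walk has all point probabilities at time `m` at most `B`, then
`Pr n ≤ B` for all `n ≥ m`. -/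
lemma Pr_le {B : ℝ} (hB : 0 ≤ B) {m n : ℕ} (hmn : m ≤ n)
    (h : ∀ v : Fin a → ℤ, Tp^[m] del0 v ≤ B) (v : Fin a → ℤ) : Pr n v ≤ B := by
  obtain ⟨l, rfl⟩ := Nat.exists_eq_add_of_le hmn
  unfold Pr
  rw [(commute_Tp_Tm (a := a)).comp_iterate]
  have hc : Function.Commute (Tp (a := a))^[m + l] (Tm (a := a))^[m + l] :=
    (commute_Tp_Tm (a := a)).iterate_iterate _ _
  have : (Tp^[m + l] ∘ Tm^[m + l]) (del0 (a := a)) = Tm^[m + l] (Tp^[l] (Tp^[m] del0)) := by
    have h1 : (Tp^[m + l] ∘ Tm^[m + l]) (del0 (a := a)) = Tm^[m + l] (Tp^[m + l] del0) := hc _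
    rw [h1, Nat.add_comm m l, Function.iterate_add_apply Tp l m]
  rw [this]
  refine iter_le (fun f hf => Tm_le hB hf) _ ?_ _ v
  exact iter_le (fun f hf => Tp_le hB hf) _ h _

/-- `1/(-z)!` for `z ≤ 0`, and `0` for `z > 0`. -/
noncomputable def invf (z : ℤ) : ℝ := if z ≤ 0 then ((z.natAbs ! : ℕ) : ℝ)⁻¹ else 0

lemma invf_nonneg (z : ℤ) : 0 ≤ invf z := by
  unfold invf; split_ifs <;> positivity

lemma invf_succ (z : ℤ) : invf (z + 1) = invf z * (-z : ℤ) := by
  unfold invf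
  rcases lt_trichotomy z 0 with h | h | h
  · obtain ⟨k, rfl⟩ : ∃ k : ℕ, z = -((k : ℤ) + 1) := ⟨(-z - 1).toNat, by omega⟩
    have h1 : (-((k : ℤ) + 1) + 1) ≤ 0 := by omega
    have h2 : (-((k : ℤ) + 1)) ≤ 0 := by omega
    rw [if_pos h1, if_pos h2]
    have h3 : (-((k : ℤ) + 1) + 1).natAbs = k := by omega
    have h4 : (-((k : ℤ) + 1)).natAbs = k + 1 := by omega
    rw [h3, h4, Nat.factorial_succ]
    push_cast
    have : ((k ! : ℕ) : ℝ) ≠ 0 := by positivity
    have : ((k : ℝ) + 1) ≠ 0 := by positivity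
    field_simp
  · subst h; simp
  · rw [if_neg (by omega), if_neg (by omega)]; simp

lemma iterate_Tp (ha : 0 < a) (n : ℕ) : ∀ v : Fin a → ℤ, Tp^[n] del0 v =
    if ∑ i, v i = -(n : ℤ) then ((n ! : ℕ) : ℝ) / (a : ℝ) ^ n * ∏ i, invf (v i) else 0 := by
  have ha' : (a : ℝ) ≠ 0 := by positivity
  induction n with
  | zero =>
    intro v
    simp only [Function.iterate_zero, id, del0]
    by_cases hv : v = 0
    · subst hv; simp [invf]
    · rw [if_neg hv]
      split_ifs with hs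
      · -- some coordinate positive
        have : ∃ i, 0 < v i := by
          by_contra hcon
          push Not at hcon
          apply hv
          have hs' : ∑ i, v i = 0 := by simpa using hs
          have := (Finset.sum_eq_zero_iff_of_nonpos (fun i _ => hcon i)).mp hs'
          funext i
          exact this i (Finset.mem_univ i)
        obtain ⟨i, hi⟩ := this
        symm
        rw [Finset.prod_eq_zero (Finset.mem_univ i)]
        · simp
        · unfold invf; rw [if_neg (by omega)]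
      · rfl
  | succ n ih =>
    intro v
    rw [Function.iterate_succ_apply']
    change (∑ i : Fin a, Tp^[n] del0 (v + Pi.single i 1)) / (a:ℝ) = _
    have hsum : ∀ i : Fin a, ∑ j, (v + Pi.single i 1 : Fin a → ℤ) j = ∑ j, v j + 1 := by
      intro i
      simp [Finset.sum_add_distrib]
    have hprod : ∀ i : Fin a, ∏ j, invf ((v + Pi.single i 1 : Fin a → ℤ) j) =
        (∏ j, invf (v j)) * ((-(v i) : ℤ) : ℝ) := by
      intro i
      rw [← Finset.mul_prod_erase _ _ (Finset.mem_univ i),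
        ← Finset.mul_prod_erase (Finset.univ) (fun j => invf (v j)) (Finset.mem_univ i)]
      have h1 : invf ((v + Pi.single i 1 : Fin a → ℤ) i) = invf (v i) * ((-(v i) : ℤ) : ℝ) := by
        simp only [Pi.add_apply, Pi.single_eq_same]
        exact invf_succ (v i)
      rw [h1]
      have h2 : ∏ j ∈ Finset.univ.erase i, invf ((v + Pi.single i 1 : Fin a → ℤ) j) =
          ∏ j ∈ Finset.univ.erase i, invf (v j) := by
        refine Finset.prod_congr rfl fun j hj => ?_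
        have : j ≠ i := Finset.ne_of_mem_erase hj
        simp [this]
      rw [h2]; ring
    have hih : ∀ i : Fin a, Tp^[n] del0 (v + Pi.single i 1) =
        if ∑ j, v j = -((n + 1 : ℕ) : ℤ) then
          ((n ! : ℕ) : ℝ) / (a : ℝ) ^ n * ((∏ j, invf (v j)) * ((-(v i) : ℤ) : ℝ)) else 0 := by
      intro i
      rw [ih, hsum, hprod]
      have : (∑ j, v j + 1 = -(n : ℤ)) ↔ (∑ j, v j = -((n + 1 : ℕ) : ℤ)) := by
        push_cast; constructor <;> intro h <;> linarith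
      by_cases h : ∑ j, v j = -((n + 1 : ℕ) : ℤ)
      · rw [if_pos h, if_pos (this.mpr h)]
      · rw [if_neg h, if_neg (fun h' => h (this.mp h'))]
    rw [Finset.sum_congr rfl (fun i _ => hih i)]
    split_ifs with hs
    · rw [← Finset.mul_sum, ← Finset.mul_sum]
      have : ∑ i, ((-(v i) : ℤ) : ℝ) = (n : ℝ) + 1 := by
        rw [← Int.cast_sum, Finset.sum_neg_distrib, hs]
        push_cast; ring
      rw [this, Nat.factorial_succ]
      push_cast
      field_simp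
      ring
    · simp

lemma invf_le_one (z : ℤ) : invf z ≤ 1 := by
  unfold invf; split_ifs
  · exact inv_le_one_of_one_le₀ (by exact_mod_cast Nat.factorial_pos _)
  · exact zero_le_one

lemma Tp_iter_le_factorial (ha : 0 < a) (n : ℕ) (v : Fin a → ℤ) :
    Tp^[n] del0 v ≤ ((n ! : ℕ) : ℝ) / (a : ℝ) ^ n := by
  rw [iterate_Tp ha]
  split_ifs
  · have : ∏ i, invf (v i) ≤ 1 := Finset.prod_le_one (fun i _ => invf_nonneg _)
      (fun i _ => invf_le_one _)
    calc ((n ! : ℕ) : ℝ) / (a : ℝ) ^ n * ∏ i, invf (v i)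
        ≤ ((n ! : ℕ) : ℝ) / (a : ℝ) ^ n * 1 := by gcongr
      _ = _ := mul_one _
  · positivity

lemma fact_mul_pow_le (k m : ℕ) : k ! * k ^ m ≤ m ! * k ^ k := by
  rcases le_total k m with h | h
  · have := Nat.factorial_mul_pow_sub_le_factorial h
    calc k ! * k ^ m = k ! * k ^ (m - k) * k ^ k := by
          rw [mul_assoc, ← pow_add, Nat.sub_add_cancel h]
      _ ≤ m ! * k ^ k := Nat.mul_le_mul_right _ this
  · -- k! ≤ m! * k^(k-m)
    have h1 : k ! ≤ m ! * k ^ (k - m) := by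
      obtain ⟨l, rfl⟩ := Nat.exists_eq_add_of_le h
      rw [Nat.add_sub_cancel_left, ← Nat.factorial_mul_ascFactorial]
      exact Nat.mul_le_mul_left _ (Nat.ascFactorial_le_pow_add m l)
    calc k ! * k ^ m ≤ (m ! * k ^ (k - m)) * k ^ m := Nat.mul_le_mul_right _ h1
      _ = m ! * k ^ k := by rw [mul_assoc, ← pow_add, Nat.sub_add_cancel h]

/-- the balanced multinomial bound -/
lemma Tp_iter_mul_le (ha : 0 < a) {k : ℕ} (hk : 0 < k) (v : Fin a → ℤ) :
    Tp^[k * a] del0 v ≤ (((k * a)! : ℕ) : ℝ) / ((a : ℝ) ^ (k * a) * ((k ! : ℕ) : ℝ) ^ a) := by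
  rw [iterate_Tp ha]
  split_ifs with hs
  · have hmain : ∏ i, invf (v i) ≤ 1 / ((k ! : ℕ) : ℝ) ^ a := by
      by_cases hpos : ∃ i, 0 < v i
      · obtain ⟨i, hi⟩ := hpos
        rw [Finset.prod_eq_zero (Finset.mem_univ i)]
        · positivity
        · unfold invf; rw [if_neg (by omega)]
      · push Not at hpos
        have h1 : ∏ i, invf (v i) = (((∏ i, (v i).natAbs ! : ℕ)) : ℝ)⁻¹ := by
          rw [Nat.cast_prod, ← Finset.prod_inv_distrib]
          refine Finset.prod_congr rfl fun i _ => ?_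
          unfold invf; rw [if_pos (hpos i)]
        have hsum : ∑ i, (v i).natAbs = k * a := by
          have : ∑ i, ((v i).natAbs : ℤ) = ((k * a : ℕ) : ℤ) := by
            rw [Finset.sum_congr rfl (fun i _ => Int.ofNat_natAbs_of_nonpos (hpos i)),
              Finset.sum_neg_distrib, hs, neg_neg]
          exact_mod_cast this
        have h2 : ∏ i : Fin a, (k ! * k ^ (v i).natAbs) ≤ ∏ i : Fin a, ((v i).natAbs ! * k ^ k) :=
          Finset.prod_le_prod' fun i _ => fact_mul_pow_le k _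
        rw [Finset.prod_mul_distrib, Finset.prod_mul_distrib, Finset.prod_pow_eq_pow_sum, hsum]
          at h2
        simp only [Finset.prod_const, Finset.card_univ, Fintype.card_fin] at h2
        rw [← pow_mul] at h2
        have h3 : k ! ^ a ≤ ∏ i : Fin a, (v i).natAbs ! :=
          Nat.le_of_mul_le_mul_right h2 (by positivity)
        rw [h1, one_div]
        apply inv_anti₀ (by positivity)
        exact_mod_cast h3
    calc (((k * a)! : ℕ) : ℝ) / (a : ℝ) ^ (k * a) * ∏ i, invf (v i)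
        ≤ (((k * a)! : ℕ) : ℝ) / (a : ℝ) ^ (k * a) * (1 / ((k ! : ℕ) : ℝ) ^ a) := by gcongr
      _ = _ := by rw [_root_.div_mul_div_comm, mul_one]
  · positivity

/-- the maximal multinomial probability at time `k * a` -/
noncomputable def Rk (a k : ℕ) : ℝ := (((k * a)! : ℕ) : ℝ) / ((a : ℝ) ^ (k * a) * ((k ! : ℕ) : ℝ) ^ a)

lemma Rk_nonneg (a k : ℕ) : 0 ≤ Rk a k := by unfold Rk; positivity

lemma Rk_succ (ha : 0 < a) (k : ℕ) :
    Rk a (k + 1) = Rk a k * ∏ j ∈ Finset.range a, (((k * a + 1 + j : ℕ) : ℝ) / ((k + 1 : ℕ) * a)) := by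
  unfold Rk
  have h1 : ((k + 1) * a)! = (k * a)! * (k * a + 1).ascFactorial a := by
    rw [Nat.factorial_mul_ascFactorial]; congr 1; ring
  have h2 : ((k + 1)! : ℕ) = (k + 1) * k ! := Nat.factorial_succ k
  rw [h1, h2, Finset.prod_div_distrib, Nat.ascFactorial_eq_prod_range]
  have ha' : (a : ℝ) ≠ 0 := by positivity
  have hk' : ((k + 1 : ℕ) : ℝ) ≠ 0 := by positivity
  have hf : ((k ! : ℕ) : ℝ) ≠ 0 := by positivity
  simp only [Finset.prod_const, Finset.card_range]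
  push_cast
  rw [show (k + 1) * a = k * a + a by ring, pow_add, mul_pow, mul_pow]
  field_simp

lemma Rk_step (ha : 9 ≤ a) {k : ℕ} (hk : 0 < k) :
    Rk a (k + 1) ≤ Rk a k * ((k : ℝ) / (k + 1)) ^ 2 := by
  have ha0 : 0 < a := by omega
  have ha' : (a : ℝ) ≠ 0 := by positivity
  have hk' : (0 : ℝ) < (k : ℝ) := by positivity
  rw [Rk_succ ha0]
  refine mul_le_mul_of_nonneg_left ?_ (Rk_nonneg a k)
  have h1 : ∏ j ∈ Finset.range a, (((k * a + 1 + j : ℕ) : ℝ) / ((k + 1 : ℕ) * a)) ≤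
      ∏ j ∈ Finset.range a, Real.exp (-(((a - 1 - j : ℝ)) / ((k + 1) * a))) := by
    refine Finset.prod_le_prod (fun j _ => by positivity) fun j hj => ?_
    have h2 := Real.add_one_le_exp (-(((a - 1 - j : ℝ)) / ((k + 1) * a)))
    refine le_trans (le_of_eq ?_) h2
    push_cast
    field_simp
    ring
  refine h1.trans ?_
  rw [← Real.exp_sum]
  have hsum : ∑ j ∈ Finset.range a, -(((a - 1 - j : ℝ)) / ((k + 1) * a)) =
      -((a - 1 : ℝ) / (2 * (k + 1))) := by
    rw [Finset.sum_neg_distrib, ← Finset.sum_div, Finset.sum_sub_distrib]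
    have h3 : ∑ j ∈ Finset.range a, (j : ℝ) = (a : ℝ) * (a - 1) / 2 := by
      have := Finset.sum_range_id_mul_two a
      have h4 : ((∑ j ∈ Finset.range a, j : ℕ) : ℝ) * 2 = (a : ℝ) * ((a - 1 : ℕ) : ℝ) := by
        exact_mod_cast this
      rw [Nat.cast_sub (by omega)] at h4
      push_cast at h4
      linarith
    rw [h3]
    simp only [Finset.sum_const, Finset.card_range, nsmul_eq_mul]
    field_simp
    ring
  rw [hsum]
  -- exp(-(a-1)/(2(k+1))) ≤ (k/(k+1))^2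
  have hle : Real.exp (-((a - 1 : ℝ) / (2 * (k + 1)))) ≤ Real.exp (-(2 / (k : ℝ))) := by
    apply Real.exp_le_exp.mpr
    apply neg_le_neg
    rw [div_le_div_iff₀ hk' (by positivity)]
    have h8 : (8 : ℝ) ≤ (a : ℝ) - 1 := by
      have : (9 : ℝ) ≤ a := by exact_mod_cast ha
      linarith
    have hk1 : (1 : ℝ) ≤ k := by exact_mod_cast hk
    nlinarith
  refine hle.trans ?_
  have h5 : 1 + 1 / (k : ℝ) ≤ Real.exp (1 / (k : ℝ)) := by
    have := Real.add_one_le_exp (1 / (k : ℝ)); linarith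
  have h6 : (1 + 1 / (k : ℝ)) ^ 2 ≤ Real.exp (2 / (k : ℝ)) := by
    calc (1 + 1 / (k : ℝ)) ^ 2 ≤ (Real.exp (1 / (k : ℝ))) ^ 2 := by gcongr
      _ = Real.exp (2 / (k : ℝ)) := by rw [← Real.exp_nat_mul]; congr 1; push_cast; ring
  rw [Real.exp_neg]
  have h7 : ((k : ℝ) / (k + 1)) ^ 2 = ((1 + 1 / (k : ℝ)) ^ 2)⁻¹ := by
    field_simp
  rw [h7]
  exact inv_anti₀ (by positivity) h6

lemma Rk_le (ha : 9 ≤ a) {k : ℕ} (hk : 0 < k) : Rk a k ≤ Rk a 1 / (k : ℝ) ^ 2 := by
  induction k, hk using Nat.le_induction with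
  | base => simp
  | succ k hk ih =>
    have hk' : (0 : ℝ) < (k : ℝ) := by exact_mod_cast hk
    calc Rk a (k + 1) ≤ Rk a k * ((k : ℝ) / (k + 1)) ^ 2 := Rk_step ha hk
      _ ≤ Rk a 1 / (k : ℝ) ^ 2 * ((k : ℝ) / (k + 1)) ^ 2 := by gcongr
      _ = Rk a 1 / ((k + 1 : ℕ) : ℝ) ^ 2 := by push_cast; field_simp

/-- pointwise bound for large times -/
lemma Pr_le_large (ha : 9 ≤ a) {n : ℕ} (hn : a ≤ n) (v : Fin a → ℤ) :
    Pr n v ≤ Rk a 1 * (4 * a ^ 2) / (n : ℝ) ^ 2 := by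
  have ha0 : 0 < a := by omega
  set k := n / a with hkdef
  have hk : 0 < k := Nat.div_pos hn ha0
  have hkn : k * a ≤ n := Nat.div_mul_le_self n a
  have hnk : n < (k + 1) * a := by
    have := Nat.lt_mul_div_succ n ha0
    rw [mul_comm]; exact this
  have h1 : Pr n v ≤ Rk a k := Pr_le (Rk_nonneg a k) hkn (fun v => Tp_iter_mul_le ha0 hk v) v
  refine h1.trans ((Rk_le ha hk).trans ?_)
  have hn0 : (0 : ℝ) < n := by
    have : 0 < n := by omega
    exact_mod_cast this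
  have hk0 : (0 : ℝ) < k := by exact_mod_cast hk
  rw [div_le_div_iff₀ (by positivity) (by positivity)]
  have h2 : (n : ℝ) ≤ 2 * a * k := by
    have h3 : n ≤ 2 * a * k := by nlinarith
    exact_mod_cast h3
  have h4 : (n : ℝ) ^ 2 ≤ (2 * a * k) ^ 2 := by gcongr
  calc Rk a 1 * (n : ℝ) ^ 2 ≤ Rk a 1 * (2 * a * k) ^ 2 :=
        mul_le_mul_of_nonneg_left h4 (Rk_nonneg a 1)
    _ = Rk a 1 * (4 * a ^ 2) * (k : ℝ) ^ 2 := by ring

lemma Pr_le_small (ha : 0 < a) (n : ℕ) (v : Fin a → ℤ) :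
    Pr n v ≤ ((n ! : ℕ) : ℝ) / (a : ℝ) ^ n :=
  Pr_le (by positivity) le_rfl (fun v => Tp_iter_le_factorial ha n v) v

lemma Pr_nonneg (n : ℕ) : ∀ v : Fin a → ℤ, 0 ≤ Pr n v := by
  induction n with
  | zero => intro v; rw [Pr_zero]; split_ifs <;> norm_num
  | succ n ih =>
    intro v
    rw [Pr_succ]
    have : 0 ≤ ∑ i : Fin a, ∑ j : Fin a, Pr n (v + Pi.single i 1 - Pi.single j 1) :=
      Finset.sum_nonneg fun i _ => Finset.sum_nonneg fun j _ => ih _
    positivity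

lemma sum_inv_sq_le (m N : ℕ) (hm : 2 ≤ m) :
    ∑ n ∈ Finset.Ico m N, (1 : ℝ) / (n : ℝ) ^ 2 ≤ 1 / ((m : ℝ) - 1) := by
  have hm' : (2 : ℝ) ≤ m := by exact_mod_cast hm
  rcases le_total N m with h | h
  · rw [Finset.Ico_eq_empty_of_le h, Finset.sum_empty]
    apply div_nonneg zero_le_one; linarith
  · have : ∑ n ∈ Finset.Ico m N, (1 : ℝ) / (n : ℝ) ^ 2 ≤ 1 / ((m : ℝ) - 1) - 1 / ((N : ℝ) - 1) := by
      induction N, h using Nat.le_induction with
      | base => simp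
      | succ N hN ih =>
        rw [Finset.sum_Ico_succ_top hN]
        have hN' : (2 : ℝ) ≤ N := by exact_mod_cast (le_trans hm hN)
        have h1 : (1 : ℝ) / (N : ℝ) ^ 2 ≤ 1 / ((N : ℝ) - 1) - 1 / (((N + 1 : ℕ) : ℝ) - 1) := by
          push_cast
          rw [add_sub_cancel_right, div_sub_div _ _ (by linarith) (by linarith),
            div_le_div_iff₀ (by positivity) (by nlinarith)]
          nlinarith
        linarith
    have hN' : (2 : ℝ) ≤ N := by exact_mod_cast (le_trans hm h)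
    have h2 : 0 ≤ 1 / ((N : ℝ) - 1) := by apply div_nonneg zero_le_one; linarith
    linarith

/-- for `a = 20` the off-diagonal part of the Green function is at most `57/1000`. -/
lemma sum_Pr_le (N : ℕ) (v : Fin 20 → ℤ) :
    ∑ n ∈ Finset.Ico 1 N, Pr n v ≤ 57 / 1000 := by
  have hsplit : ∑ n ∈ Finset.Ico 1 N, Pr n v ≤
      ∑ n ∈ Finset.Ico 1 20, Pr n v + ∑ n ∈ Finset.Ico 20 N, Pr n v := by
    rw [← Finset.sum_union]
    · refine Finset.sum_le_sum_of_subset_of_nonneg ?_ (fun n _ _ => Pr_nonneg n v)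
      intro n hn
      simp only [Finset.mem_union, Finset.mem_Ico] at hn ⊢
      omega
    · rw [Finset.disjoint_left]
      intro n hn
      simp only [Finset.mem_Ico] at hn ⊢
      omega
  have h1 : ∑ n ∈ Finset.Ico 1 20, Pr n v ≤
      ∑ n ∈ Finset.Ico 1 20, ((n ! : ℕ) : ℝ) / ((20 : ℕ) : ℝ) ^ n :=
    Finset.sum_le_sum fun n _ => Pr_le_small (by norm_num) n v
  have h2 : ∑ n ∈ Finset.Ico 20 N, Pr n v ≤
      (Rk 20 1 * (4 * ((20 : ℕ) : ℝ) ^ 2)) * ∑ n ∈ Finset.Ico 20 N, (1 : ℝ) / (n : ℝ) ^ 2 := by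
    rw [Finset.mul_sum]
    refine Finset.sum_le_sum fun n hn => ?_
    rw [Finset.mem_Ico] at hn
    refine (Pr_le_large (by norm_num) hn.1 v).trans (le_of_eq ?_)
    ring
  have h3 := sum_inv_sq_le 20 N (by norm_num)
  have h4 : ∑ n ∈ Finset.Ico 1 20, ((n ! : ℕ) : ℝ) / ((20 : ℕ) : ℝ) ^ n ≤ 565 / 10000 := by
    simp only [Finset.sum_Ico_eq_sum_range, Finset.sum_range_succ, Finset.sum_range_zero,
      Nat.factorial]
    norm_num
  have h5 : Rk 20 1 * (4 * ((20 : ℕ) : ℝ) ^ 2) ≤ 1 / 1000 := by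
    unfold Rk
    simp only [Nat.factorial]
    norm_num
  have h6 : 0 ≤ Rk 20 1 * (4 * ((20 : ℕ) : ℝ) ^ 2) := mul_nonneg (Rk_nonneg _ _) (by positivity)
  have h7 : (Rk 20 1 * (4 * ((20 : ℕ) : ℝ) ^ 2)) * ∑ n ∈ Finset.Ico 20 N, (1 : ℝ) / (n : ℝ) ^ 2
      ≤ 1 / 1000 * (1 / (((20 : ℕ) : ℝ) - 1)) :=
    mul_le_mul h5 h3 (Finset.sum_nonneg fun n _ => by positivity) (by norm_num)
  have h8 : (1 : ℝ) / 1000 * (1 / (((20 : ℕ) : ℝ) - 1)) ≤ 1 / 10000 := by norm_num
  linarith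

end Pool.Agent.H96Perc
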