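import Pool.Agent.H96Perc.Defs

namespace Pool.Agent.H96Perc

open MeasureTheory ProbabilityTheory

variable {d : ℕ}

instance (p : unitInterval) : IsProbabilityMeasure (perc d p) := by
  unfold perc; infer_instance

/-- The cylinder event: all edges of `S` open, all edges of `T` closed. -/
def cyl (S T : Finset (Edge d)) : Set (Config d) :=
  {ω | (∀ e ∈ S, ω e = true) ∧ (∀ e ∈ T, ω e = false)}

lemma measurableSet_edge (e : Edge d) (b : Bool) : MeasurableSet {ω : Config d | ω e = b} :=
  measurableSet_eq_fun (measurable_pi_apply e) measurable_const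

lemma measurableSet_cyl (S T : Finset (Edge d)) : MeasurableSet (cyl S T) := by
  have : cyl S T = (⋂ e ∈ S, {ω : Config d | ω e = true}) ∩
      (⋂ e ∈ T, {ω : Config d | ω e = false}) := by
    ext ω; simp [cyl]
  rw [this]
  exact (Finset.measurableSet_biInter S (fun e _ => measurableSet_edge e true)).inter
    (Finset.measurableSet_biInter T (fun e _ => measurableSet_edge e false))

lemma perc_cyl (p : unitInterval) (S T : Finset (Edge d)) (h : Disjoint S T) :
    (perc d p).real (cyl S T) = (p : ℝ) ^ S.card * (1 - (p : ℝ)) ^ T.card := by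
  classical
  set t : Edge d → Set Bool := fun e => if e ∈ S then {true} else {false} with ht
  have hset : cyl S T = Set.pi ((S ∪ T : Finset (Edge d)) : Set (Edge d)) t := by
    ext ω
    simp only [cyl, Set.mem_setOf_eq, Set.mem_pi, Finset.coe_union, Set.mem_union,
      Finset.mem_coe, ht]
    constructor
    · rintro ⟨h1, h2⟩ e he
      by_cases heS : e ∈ S
      · simp [heS, h1 e heS]
      · rcases he with he | he
        · exact absurd he heS
        · simp [heS, h2 e he]
    · intro hh
      refine ⟨fun e he => ?_, fun e he => ?_⟩
      · have := hh e (Or.inl he)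
        simpa [he] using this
      · have hns : e ∉ S := fun hS => (Finset.disjoint_left.mp h hS he)
        have := hh e (Or.inr he)
        simpa [hns] using this
  rw [hset, measureReal_def, perc, Measure.infinitePi_pi _ (fun i _ => by
    exact MeasurableSet.of_discrete)]
  rw [Finset.prod_union h, ENNReal.toReal_mul, ENNReal.toReal_prod, ENNReal.toReal_prod]
  congr 1
  · rw [Finset.prod_congr rfl (g := fun _ => (p : ℝ))]
    · simp
    · intro e he
      simp only [ht, he, if_true]
      have := bernoulliMeasure_real_apply_of_mem_of_notMem (x := true) (y := false) p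
        (s := {true}) MeasurableSet.of_discrete (by simp) (by simp)
      simpa [measureReal_def] using this
  · rw [Finset.prod_congr rfl (g := fun _ => (1 - (p : ℝ)))]
    · simp
    · intro e he
      have hns : e ∉ S := fun hS => (Finset.disjoint_left.mp h hS he)
      simp only [ht, hns, if_false]
      have := bernoulliMeasure_real_apply_of_notMem_of_mem (x := true) (y := false) p
        (s := {false}) MeasurableSet.of_discrete (by simp) (by simp)
      simpa [measureReal_def] using this

lemma cyl_inter_open [DecidableEq (Edge d)] (S T U : Finset (Edge d)) :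
    cyl S T ∩ {ω | ∀ e ∈ U, ω e = true} = cyl (S ∪ U) T := by
  ext ω
  simp only [cyl, Set.mem_inter_iff, Set.mem_setOf_eq, Finset.mem_union]
  constructor
  · rintro ⟨⟨h1, h2⟩, h3⟩
    exact ⟨fun e he => he.elim (h1 e) (h3 e), h2⟩
  · rintro ⟨h1, h2⟩
    exact ⟨⟨fun e he => h1 e (Or.inl he), h2⟩, fun e he => h1 e (Or.inr he)⟩

lemma joins_symm {e : Edge d} {x y : V d} (h : Joins e x y) : Joins e y x := by
  rcases h with h | h
  · exact Or.inr h
  · exact Or.inl h

lemma openAdj_symm {ω : Config d} {x y : V d} (h : OpenAdj ω x y) : OpenAdj ω y x := by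
  obtain ⟨e, he, hj⟩ := h
  exact ⟨e, he, joins_symm hj⟩

lemma measurableSet_openAdj (x y : V d) : MeasurableSet {ω : Config d | OpenAdj ω x y} := by
  have : {ω : Config d | OpenAdj ω x y} =
      ⋃ e : Edge d, ⋃ _ : Joins e x y, {ω : Config d | ω e = true} := by
    ext ω; simp [OpenAdj, and_comm]
  rw [this]
  exact MeasurableSet.iUnion fun e => MeasurableSet.iUnion fun _ => measurableSet_edge e true

/-- Reachability from the origin in `n` steps. -/
def reach (ω : Config d) : ℕ → V d → Prop
  | 0, x => x = 0
  | (n + 1), x => ∃ y, reach ω n y ∧ OpenAdj ω y x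

lemma measurableSet_reach (n : ℕ) : ∀ x : V d, MeasurableSet {ω : Config d | reach ω n x} := by
  induction n with
  | zero => intro x; by_cases h : x = 0 <;> simp [reach, h]
  | succ n ih =>
    intro x
    have : {ω : Config d | reach ω (n + 1) x} =
        ⋃ y : V d, ({ω : Config d | reach ω n y} ∩ {ω : Config d | OpenAdj ω y x}) := by
      ext ω; simp [reach]
    rw [this]
    exact MeasurableSet.iUnion fun y => (ih y).inter (measurableSet_openAdj y x)

lemma mem_clusterV_iff (ω : Config d) (x : V d) : x ∈ clusterV ω ↔ ∃ n, reach ω n x := by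
  constructor
  · intro h
    induction h with
    | refl => exact ⟨0, rfl⟩
    | tail _ hbc ih =>
      obtain ⟨n, hn⟩ := ih
      exact ⟨n + 1, _, hn, hbc⟩
  · rintro ⟨n, hn⟩
    induction n generalizing x with
    | zero => rw [show x = 0 from hn]; exact Relation.ReflTransGen.refl
    | succ n ih =>
      obtain ⟨y, hy, hyx⟩ := hn
      exact Relation.ReflTransGen.tail (ih y hy) hyx

lemma measurableSet_mem_clusterV (x : V d) : MeasurableSet {ω : Config d | x ∈ clusterV ω} := by
  have : {ω : Config d | x ∈ clusterV ω} = ⋃ n, {ω : Config d | reach ω n x} := by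
    ext ω; simp [mem_clusterV_iff]
  rw [this]
  exact MeasurableSet.iUnion fun n => measurableSet_reach n x

lemma measurable_cluster : Measurable (cluster (d := d)) := by
  refine Measurable.prodMk ?_ ?_
  · rw [measurable_set_iff]
    intro x
    exact measurableSet_setOf.mp (measurableSet_mem_clusterV x)
  · rw [measurable_set_iff]
    intro e
    refine measurableSet_setOf.mp ?_
    exact (measurableSet_edge e true).inter ((measurableSet_mem_clusterV e.1).inter
      (measurableSet_mem_clusterV _))

lemma measurableSet_infCluster : MeasurableSet (infCluster d) := by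
  -- the cluster is infinite iff it is contained in no finite set
  have : infCluster d = ⋂ F : Finset (V d), ⋃ x : V d, ⋃ _ : x ∉ F,
      {ω : Config d | x ∈ clusterV ω} := by
    ext ω
    simp only [infCluster, Set.mem_setOf_eq, Set.mem_iInter, Set.mem_iUnion, exists_prop]
    constructor
    · intro h F
      obtain ⟨x, hx, hxF⟩ := h.exists_notMem_finset F
      exact ⟨x, hxF, hx⟩
    · intro h hfin
      obtain ⟨x, hx, hx'⟩ := h hfin.toFinset
      exact hx (by simpa using hx')
  rw [this]
  exact MeasurableSet.iInter fun F => MeasurableSet.iUnion fun x => MeasurableSet.iUnion fun _ =>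
    measurableSet_mem_clusterV x

end Pool.Agent.H96Perc
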