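import Mathlib

/-!
# Bernoulli bond percolation on the nearest-neighbour lattice `ℤ^d`: definitions
-/

namespace Pool.Agent.H96Perc

open MeasureTheory ProbabilityTheory

/-- The vertices of the lattice `ℤ^d`. -/
abbrev V (d : ℕ) := Fin d → ℤ

/-- The nearest-neighbour edges of `ℤ^d`: the pair `(x, i)` stands for the (undirected) edge
joining `x` and `x + e_i`, where `e_i` is the `i`-th unit vector. -/
abbrev Edge (d : ℕ) := V d × Fin d

/-- The edge `e` joins the vertices `x` and `y` (in either order). -/
def Joins {d : ℕ} (e : Edge d) (x y : V d) : Prop :=
  (x = e.1 ∧ y = e.1 + Pi.single e.2 1) ∨ (y = e.1 ∧ x = e.1 + Pi.single e.2 1)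

/-- A percolation configuration: each edge is open (`true`) or closed (`false`). -/
abbrev Config (d : ℕ) := Edge d → Bool

/-- Bernoulli bond percolation: each edge is open with probability `p`, independently. -/
noncomputable def perc (d : ℕ) (p : unitInterval) : Measure (Config d) :=
  Measure.infinitePi (fun _ : Edge d => bernoulliMeasure true false p)

/-- Two vertices are joined by an open edge. -/
def OpenAdj {d : ℕ} (ω : Config d) (x y : V d) : Prop :=
  ∃ e : Edge d, ω e = true ∧ Joins e x y

/-- The vertex set of the open cluster of the origin. -/
def clusterV {d : ℕ} (ω : Config d) : Set (V d) :=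
  {x | Relation.ReflTransGen (OpenAdj ω) 0 x}

/-- The edge set of the open cluster of the origin: the open edges whose endpoints are in the
cluster (if one endpoint of an open edge is in the cluster then so is the other). -/
def clusterE {d : ℕ} (ω : Config d) : Set (Edge d) :=
  {e | ω e = true ∧ e.1 ∈ clusterV ω ∧ e.1 + Pi.single e.2 1 ∈ clusterV ω}

/-- Subgraphs of `ℤ^d`, given by a set of vertices and a set of edges, with the product
sigma-algebra. -/
abbrev Subgr (d : ℕ) := Set (V d) × Set (Edge d)

/-- The open cluster of the origin, as a subgraph. -/
def cluster {d : ℕ} (ω : Config d) : Subgr d := (clusterV ω, clusterE ω)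

/-- The event that the open cluster of the origin is infinite. -/
def infCluster (d : ℕ) : Set (Config d) := {ω | (clusterV ω).Infinite}

/-- The critical probability `p_c(d)`. -/
noncomputable def pc (d : ℕ) : ℝ :=
  sInf {p : ℝ | ∃ h : p ∈ unitInterval, 0 < perc d ⟨p, h⟩ (infCluster d)}

/-- The law of `C_∞(p)`: the law of the open cluster of the origin, conditioned to be
infinite. -/
noncomputable def condLaw (d : ℕ) (p : unitInterval) : Measure (Subgr d) :=
  (ProbabilityTheory.cond (perc d p) (infCluster d)).map cluster

end Pool.Agent.H96Perc
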