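import Pool.Agent.H96Perc.Snake

namespace Pool.Agent.H96Perc

open MeasureTheory ProbabilityTheory

/-- edges incident to the box `[0,n)^d` -/
noncomputable def EB (n d : ℕ) : Finset (Edge d) :=
  (Finset.univ : Finset (Fin d)).biUnion fun j =>
    (Fintype.piFinset fun i => if i = j then Finset.Ico (-1) (n : ℤ) else Finset.Ico 0 (n : ℤ)).image
      (fun x => (x, j))

lemma mem_EB {n d : ℕ} (e : Edge d) : e ∈ EB n d ↔
    ∀ i, (if i = e.2 then (-1 : ℤ) else 0) ≤ e.1 i ∧ e.1 i < n := by
  unfold EB
  simp only [Finset.mem_biUnion, Finset.mem_univ, true_and, Finset.mem_image,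
    Fintype.mem_piFinset]
  constructor
  · rintro ⟨j, x, hx, rfl⟩ i
    have := hx i
    by_cases h : i = j
    · simp only [h, if_true, Finset.mem_Ico] at this ⊢; exact this
    · simp only [h, if_false, Finset.mem_Ico] at this ⊢; exact this
  · intro h
    refine ⟨e.2, e.1, fun i => ?_, rfl⟩
    have := h i
    by_cases h' : i = e.2
    · simp only [h', if_true, Finset.mem_Ico] at this ⊢; exact this
    · simp only [h', if_false, Finset.mem_Ico] at this ⊢; exact this

lemma card_EB_le (n k : ℕ) : (EB n (k + 1)).card ≤ (k + 1) * ((n + 1) * n ^ k) := by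
  unfold EB
  refine Finset.card_biUnion_le.trans ?_
  have : ∀ j : Fin (k + 1), ((Fintype.piFinset fun i => if i = j then Finset.Ico (-1) (n : ℤ)
      else Finset.Ico 0 (n : ℤ)).image (fun x => ((x, j) : Edge (k + 1)))).card ≤
      (n + 1) * n ^ k := by
    intro j
    refine Finset.card_image_le.trans ?_
    rw [Fintype.card_piFinset, ← Finset.mul_prod_erase _ _ (Finset.mem_univ j)]
    rw [if_pos rfl]
    have h1 : (Finset.Ico (-1) (n : ℤ)).card = n + 1 := by
      rw [Int.card_Ico]; omega
    rw [h1]
    refine Nat.mul_le_mul_left _ (le_of_eq ?_)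
    rw [Finset.prod_congr rfl (g := fun _ => n)]
    · rw [Finset.prod_const, Finset.card_erase_of_mem (Finset.mem_univ j)]
      simp
    · intro i hi
      rw [if_neg (Finset.ne_of_mem_erase hi), Int.card_Ico]; omega
  calc ∑ j : Fin (k + 1), _ ≤ ∑ _j : Fin (k + 1), (n + 1) * n ^ k :=
        Finset.sum_le_sum fun j _ => this j
    _ = (k + 1) * ((n + 1) * n ^ k) := by simp

/-- an edge incident to a vertex of the box is in `EB`. -/
lemma mem_EB_of_joins {n d : ℕ} {e : Edge d} {x y : V d} (h : Joins e x y)
    (hx : ∀ i, 0 ≤ x i ∧ x i < n) : e ∈ EB n d := by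
  rw [mem_EB]
  intro i
  rcases h with ⟨h1, _⟩ | ⟨_, h2⟩
  · rw [← h1]
    refine ⟨le_trans ?_ (hx i).1, (hx i).2⟩
    split_ifs <;> norm_num
  · have h3 := hx i
    rw [h2, Pi.add_apply, Pi.single_apply] at h3
    split_ifs at h3 ⊢ <;> omega

/-- every edge of `EB` has an endpoint in the box. -/
lemma exists_box_endpoint {n d : ℕ} (hn : 0 < n) {e : Edge d} (h : e ∈ EB n d) :
    (∀ i, 0 ≤ e.1 i ∧ e.1 i < n) ∨
      (∀ i, 0 ≤ (e.1 + Pi.single e.2 1 : V d) i ∧ (e.1 + Pi.single e.2 1 : V d) i < n) := by
  rw [mem_EB] at h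
  by_cases h0 : 0 ≤ e.1 e.2
  · left
    intro i
    have := h i
    by_cases hi : i = e.2
    · rw [hi] at this ⊢; exact ⟨h0, this.2⟩
    · rw [if_neg hi] at this; exact this
  · right
    intro i
    have h1 := h i
    have h2 := h e.2
    rw [if_pos rfl] at h2
    by_cases hi : i = e.2
    · subst hi
      rw [Pi.add_apply, Pi.single_eq_same]
      omega
    · rw [if_neg hi] at h1
      rw [Pi.add_apply, Pi.single_eq_of_ne hi]
      omega

section

variable {n : ℕ} (hn : 0 < n) (k : ℕ)

include hn in
lemma exists_pe (t : ℕ) : ∃ e : Edge (k + 1), Joins e (snake n (k + 1) t) (snake n (k + 1) (t + 1)) := by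
  obtain ⟨i, h | h⟩ := snake_nbr' hn k t
  · exact ⟨(snake n (k + 1) t, i), Or.inl ⟨rfl, h⟩⟩
  · exact ⟨(snake n (k + 1) (t + 1), i), Or.inr ⟨rfl, h⟩⟩

/-- the `t`-th edge of the path -/
noncomputable def pe (t : ℕ) : Edge (k + 1) := (exists_pe hn k t).choose

lemma joins_pe (t : ℕ) : Joins (pe hn k t) (snake n (k + 1) t) (snake n (k + 1) (t + 1)) :=
  (exists_pe hn k t).choose_spec

lemma joins_unique {d : ℕ} {e : Edge d} {x y x' y' : V d} (h : Joins e x y) (h' : Joins e x' y') :
    (x = x' ∧ y = y') ∨ (x = y' ∧ y = x') := by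
  rcases h with ⟨h1, h2⟩ | ⟨h1, h2⟩ <;> rcases h' with ⟨h3, h4⟩ | ⟨h3, h4⟩
  · left; exact ⟨h1.trans h3.symm, h2.trans h4.symm⟩
  · right; exact ⟨h1.trans h3.symm, h2.trans h4.symm⟩
  · right; exact ⟨h2.trans h4.symm, h1.trans h3.symm⟩
  · left; exact ⟨h2.trans h4.symm, h1.trans h3.symm⟩

lemma pe_inj (s t : ℕ) (h : pe hn k s = pe hn k t) : s = t := by
  have h1 := joins_pe hn k s
  have h2 := joins_pe hn k t
  rw [h] at h1
  rcases joins_unique h1 h2 with ⟨h3, _⟩ | ⟨h3, h4⟩
  · exact snake_inj' hn k _ _ h3
  · have h5 := snake_inj' hn k _ _ h3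
    have h6 := snake_inj' hn k _ _ h4
    omega

/-- the path edges -/
noncomputable def SS : Finset (Edge (k + 1)) := (Finset.range (n ^ (k + 1))).image (pe hn k)

/-- the other edges incident to the box -/
noncomputable def TT : Finset (Edge (k + 1)) := by
  classical
  exact EB n (k + 1) \ SS hn k

lemma card_SS : (SS hn k).card = n ^ (k + 1) := by
  unfold SS
  rw [Finset.card_image_of_injective _ (fun s t h => pe_inj hn k s t h), Finset.card_range]

lemma SS_subset : SS hn k ⊆ EB n (k + 1) := by
  intro e he
  unfold SS at he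
  rw [Finset.mem_image] at he
  obtain ⟨t, ht, rfl⟩ := he
  exact mem_EB_of_joins (joins_pe hn k t) (snake_mem hn (k + 1) t (Finset.mem_range.mp ht))

lemma card_TT : (TT hn k).card + n ^ (k + 1) ≤ (k + 1) * ((n + 1) * n ^ k) := by
  classical
  have h1 : (TT hn k).card + (SS hn k).card = (EB n (k + 1)).card := by
    unfold TT
    exact Finset.card_sdiff_add_card_eq_card (SS_subset hn k)
  rw [card_SS] at h1
  rw [h1]
  exact card_EB_le n k

lemma disj_ST : Disjoint (SS hn k) (TT hn k) := by
  classical
  unfold TT
  exact Finset.disjoint_sdiff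

/-- the exit vertex -/
def exitV (n k : ℕ) : V (k + 1) := snake n (k + 1) (n ^ (k + 1))

include hn in
lemma exitV_last : exitV n k (Fin.last k) = n := by
  unfold exitV
  rw [snake_succ_last, pow_succ, Nat.mul_div_cancel_left _ (by positivity)]

include hn in
lemma EB_below {e : Edge (k + 1)} (he : e ∈ EB n (k + 1)) :
    e.1 (Fin.last k) < exitV n k (Fin.last k) := by
  rw [mem_EB] at he
  rw [exitV_last hn]
  exact (he _).2

/-- on the cylinder, every vertex of the path (including the exit) is in the cluster. -/
lemma path_mem_cluster (ω : Config (k + 1)) (hω : ω ∈ cyl (SS hn k) (TT hn k)) :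
    ∀ t, t ≤ n ^ (k + 1) → snake n (k + 1) t ∈ clusterV ω := by
  intro t
  induction t with
  | zero => intro _; rw [snake_zero]; exact Relation.ReflTransGen.refl
  | succ t ih =>
    intro ht
    have h1 := ih (by omega)
    refine Relation.ReflTransGen.tail h1 ⟨pe hn k t, ?_, joins_pe hn k t⟩
    exact hω.1 _ (Finset.mem_image.mpr ⟨t, Finset.mem_range.mpr (by omega), rfl⟩)

/-- the deterministic claim: an infinite cluster avoiding `TT` forces the cylinder. -/
lemma cyl_of_avoid (ω : Config (k + 1)) (hinf : ω ∈ infCluster (k + 1))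
    (hT : ∀ e ∈ TT hn k, e ∉ clusterE ω) : ω ∈ cyl (SS hn k) (TT hn k) := by
  classical
  -- an open edge with an endpoint in the cluster is an edge of the cluster
  have hE : ∀ (e : Edge (k + 1)) (x y : V (k + 1)), ω e = true → Joins e x y → x ∈ clusterV ω →
      e ∈ clusterE ω := by
    intro e x y he hj hx
    have hy : y ∈ clusterV ω := Relation.ReflTransGen.tail hx ⟨e, he, hj⟩
    rcases hj with ⟨h1, h2⟩ | ⟨h1, h2⟩
    · exact ⟨he, h1 ▸ hx, h2 ▸ hy⟩
    · exact ⟨he, h1 ▸ hy, h2 ▸ hx⟩
  -- main induction
  have key : ∀ t, t ≤ n ^ (k + 1) → (snake n (k + 1) t ∈ clusterV ω ∧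
      ∀ s < t, ω (pe hn k s) = true) := by
    intro t
    induction t with
    | zero =>
      intro _
      refine ⟨?_, fun s hs => absurd hs (Nat.not_lt_zero s)⟩
      rw [snake_zero]; exact Relation.ReflTransGen.refl
    | succ t ih =>
      intro ht
      obtain ⟨h1, h2⟩ := ih (by omega)
      have hopen : ω (pe hn k t) = true := by
        by_contra hclosed
        apply hinf
        -- the cluster is contained in the finite set of the first vertices
        have hsub : clusterV ω ⊆ ((Finset.range (t + 1)).image (snake n (k + 1)) :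
            Finset (V (k + 1))) := by
          intro x hx
          have hx' : Relation.ReflTransGen (OpenAdj ω) 0 x := hx
          induction hx' with
          | refl =>
            simp only [Finset.coe_image, Set.mem_image, Finset.mem_coe, Finset.mem_range]
            exact ⟨0, by omega, snake_zero _⟩
          | @tail b c hab hbc ihb =>
            have hb := ihb hab
            simp only [Finset.coe_image, Set.mem_image, Finset.mem_coe, Finset.mem_range]
              at hb ⊢
            obtain ⟨s, hs, rfl⟩ := hb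
            obtain ⟨e, he, hj⟩ := hbc
            have heE : e ∈ clusterE ω := hE e _ _ he hj hab
            have heB : e ∈ EB n (k + 1) :=
              mem_EB_of_joins hj (snake_mem hn (k + 1) s (by omega))
            have heS : e ∈ SS hn k := by
              by_contra hnot
              exact hT e (by unfold TT; exact Finset.mem_sdiff.mpr ⟨heB, hnot⟩) heE
            unfold SS at heS
            rw [Finset.mem_image] at heS
            obtain ⟨r, hr, rfl⟩ := heS
            rcases joins_unique (joins_pe hn k r) hj with ⟨h3, h4⟩ | ⟨h3, h4⟩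
            · have h5 := snake_inj' hn k _ _ h3
              subst h5
              have h6 : r ≠ t := by
                rintro rfl
                exact hclosed he
              exact ⟨r + 1, by omega, h4⟩
            · have h5 := snake_inj' hn k _ _ h4
              exact ⟨r, by omega, h3⟩
        exact (Finset.finite_toSet _).subset hsub
      refine ⟨Relation.ReflTransGen.tail h1 ⟨pe hn k t, hopen, joins_pe hn k t⟩, ?_⟩
      intro s hs
      rcases Nat.lt_succ_iff_lt_or_eq.mp hs with h | h
      · exact h2 s h
      · rw [h]; exact hopen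
  constructor
  · intro e he
    unfold SS at he
    rw [Finset.mem_image] at he
    obtain ⟨t, ht, rfl⟩ := he
    exact (key _ le_rfl).2 t (Finset.mem_range.mp ht)
  · intro e he
    have heB : e ∈ EB n (k + 1) := by
      unfold TT at he
      exact (Finset.mem_sdiff.mp he).1
    by_contra hopen
    have hopen' : ω e = true := by
      cases h : ω e with
      | true => rfl
      | false => exact absurd h hopen
    apply hT e he
    rcases exists_box_endpoint hn heB with h | h
    · obtain ⟨s, hs, hsx⟩ := snake_surj hn (k + 1) e.1 h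
      have := (key s hs.le).1
      rw [hsx] at this
      exact hE e _ _ hopen' (Or.inl ⟨rfl, rfl⟩) this
    · obtain ⟨s, hs, hsx⟩ := snake_surj hn (k + 1) _ h
      have := (key s hs.le).1
      rw [hsx] at this
      exact hE e _ _ hopen' (Or.inr ⟨rfl, rfl⟩) this

end

end Pool.Agent.H96Perc
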