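import Pool.Agent.H96Perc.Survival
import Pool.Agent.H96Perc.Pattern

namespace Pool.Agent.H96Perc

open MeasureTheory ProbabilityTheory

/-- the set of subgraphs containing no edge of `T` -/
def avoid {d : ℕ} (T : Finset (Edge d)) : Set (Subgr d) := {c | ∀ e ∈ T, e ∉ c.2}

lemma measurableSet_avoid {d : ℕ} (T : Finset (Edge d)) : MeasurableSet (avoid T) := by
  have : avoid T = ⋂ e ∈ T, {c : Subgr d | e ∉ c.2} := by
    ext c; simp [avoid]
  rw [this]
  refine Finset.measurableSet_biInter T fun e _ => ?_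
  exact (measurable_snd (measurableSet_setOfPred.mpr (measurable_set_notMem e)))

/-- general coupling obstruction -/
lemma avoid_le_of_coupling {d : ℕ} {Ω : Type*} [MeasurableSpace Ω] (P : Measure Ω)
    [IsProbabilityMeasure P] (X₁ X₂ : Ω → Subgr d) (h₁ : Measurable X₁) (h₂ : Measurable X₂)
    (h : ∀ᵐ ω ∂P, (X₁ ω).1 ⊆ (X₂ ω).1 ∧ (X₁ ω).2 ⊆ (X₂ ω).2) (T : Finset (Edge d)) :
    (P.map X₂) (avoid T) ≤ (P.map X₁) (avoid T) := by
  rw [Measure.map_apply h₂ (measurableSet_avoid T), Measure.map_apply h₁ (measurableSet_avoid T)]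
  refine measure_mono_ae ?_
  filter_upwards [h] with ω hω hmem
  intro e he hcon
  exact hmem e he (hω.2 hcon)

lemma condLaw_apply {d : ℕ} (p : unitInterval) (T : Finset (Edge d)) :
    (condLaw d p) (avoid T) = (perc d p (infCluster d))⁻¹ *
      perc d p (infCluster d ∩ cluster ⁻¹' (avoid T)) := by
  unfold condLaw
  rw [Measure.map_apply measurable_cluster (measurableSet_avoid T),
    ProbabilityTheory.cond_apply measurableSet_infCluster]

variable {n : ℕ}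

lemma below_SS (hn : 0 < n) : Below (a := 20) (SS hn 20) (exitV n 20) := by
  intro e he
  exact ⟨Fin.last 19, EB_below hn 20 (SS_subset hn 20 he)⟩

lemma below_TT (hn : 0 < n) : Below (a := 20) (TT hn 20) (exitV n 20) := by
  intro e he
  have : e ∈ EB n (20 + 1) := by
    unfold TT at he
    exact (Finset.mem_sdiff.mp he).1
  exact ⟨Fin.last 19, EB_below hn 20 this⟩

lemma theta_lower (p : unitInterval) (hp : (10 : ℝ) / 213 ≤ p) :
    (1 : ℝ) / 97 ≤ (perc (20 + 1) p).real (infCluster (20 + 1)) := by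
  have h := survival p hp 0 ∅ ∅ (by simp) (by intro e he; simp at he)
    (by intro e he; simp at he) (fun ω _ => Relation.ReflTransGen.refl)
  simp only [Finset.card_empty, pow_zero, mul_one] at h
  refine h.trans (measureReal_mono Set.inter_subset_right)

lemma pc_le : pc (20 + 1) ≤ 10 / 213 := by
  have hp : (10 / 213 : ℝ) ∈ unitInterval := ⟨by norm_num, by norm_num⟩
  refine csInf_le ⟨0, ?_⟩ ⟨hp, ?_⟩
  · rintro p ⟨h, _⟩; exact h.1
  · have h := theta_lower ⟨10 / 213, hp⟩ le_rfl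
    have h2 : (0 : ℝ) < (perc (20 + 1) ⟨10 / 213, hp⟩).real (infCluster (20 + 1)) :=
      lt_of_lt_of_le (by norm_num) h
    rw [measureReal_def] at h2
    exact (ENNReal.toReal_pos_iff.mp h2).1

/-- the key inequality forced by a monotone coupling -/
lemma key_ineq (p₁ p₂ : unitInterval) (hp₁ : (10 : ℝ) / 213 ≤ p₁) (hp₂ : (10 : ℝ) / 213 ≤ p₂)
    (hn : 0 < n)
    (h : (condLaw (20 + 1) p₂) (avoid (TT hn 20)) ≤ (condLaw (20 + 1) p₁) (avoid (TT hn 20))) :
    (p₂ : ℝ) ^ (n ^ 21) * (1 - (p₂ : ℝ)) ^ (TT hn 20).card ≤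
      9409 * ((p₁ : ℝ) ^ (n ^ 21) * (1 - (p₁ : ℝ)) ^ (TT hn 20).card) := by
  have hI₁ := theta_lower p₁ hp₁
  have hI₂ := theta_lower p₂ hp₂
  -- lower bound at `p₂`
  have hlow := survival p₂ hp₂ (exitV n 20) (SS hn 20) (TT hn 20) (disj_ST hn 20) (below_SS hn)
    (below_TT hn) (fun ω hω => path_mem_cluster hn 20 ω hω _ le_rfl)
  have hsub₂ : cyl (SS hn 20) (TT hn 20) ∩ infCluster (20 + 1) ⊆
      infCluster (20 + 1) ∩ cluster ⁻¹' (avoid (TT hn 20)) := by
    rintro ω ⟨h1, h2⟩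
    refine ⟨h2, fun e he hcon => ?_⟩
    have h3 := h1.2 e he
    have h4 : ω e = true := hcon.1
    rw [h3] at h4
    exact absurd h4 (by decide)
  have hsub₁ : infCluster (20 + 1) ∩ cluster ⁻¹' (avoid (TT hn 20)) ⊆
      cyl (SS hn 20) (TT hn 20) := by
    rintro ω ⟨h1, h2⟩
    exact cyl_of_avoid hn 20 ω h1 h2
  rw [condLaw_apply, condLaw_apply] at h
  have h' := ENNReal.toReal_mono (by
    refine ENNReal.mul_ne_top (ENNReal.inv_ne_top.mpr ?_) (measure_ne_top _ _)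
    intro h0
    rw [measureReal_def, h0] at hI₁
    norm_num at hI₁) h
  rw [ENNReal.toReal_mul, ENNReal.toReal_mul, ENNReal.toReal_inv, ENNReal.toReal_inv,
    ← measureReal_def, ← measureReal_def, ← measureReal_def, ← measureReal_def] at h'
  have hup := perc_cyl p₁ (SS hn 20) (TT hn 20) (disj_ST hn 20)
  rw [card_SS] at hup hlow
  have h1 : (perc (20 + 1) p₁).real (infCluster (20 + 1) ∩ cluster ⁻¹' (avoid (TT hn 20))) ≤
      (p₁ : ℝ) ^ (n ^ 21) * (1 - (p₁ : ℝ)) ^ (TT hn 20).card := by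
    rw [← hup]; exact measureReal_mono hsub₁
  have h2 : (p₂ : ℝ) ^ (n ^ 21) * (1 - (p₂ : ℝ)) ^ (TT hn 20).card / 97 ≤
      (perc (20 + 1) p₂).real (infCluster (20 + 1) ∩ cluster ⁻¹' (avoid (TT hn 20))) :=
    hlow.trans (measureReal_mono hsub₂)
  set A₁ := (perc (20 + 1) p₁).real (infCluster (20 + 1) ∩ cluster ⁻¹' (avoid (TT hn 20)))
  set A₂ := (perc (20 + 1) p₂).real (infCluster (20 + 1) ∩ cluster ⁻¹' (avoid (TT hn 20)))
  set I₁ := (perc (20 + 1) p₁).real (infCluster (20 + 1))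
  set I₂ := (perc (20 + 1) p₂).real (infCluster (20 + 1))
  have hI₂1 : I₂ ≤ 1 := measureReal_le_one
  have hA₁ : 0 ≤ A₁ := measureReal_nonneg
  have hA₂ : 0 ≤ A₂ := measureReal_nonneg
  have h3 : A₂ ≤ I₂⁻¹ * A₂ := by
    have : 1 ≤ I₂⁻¹ := (one_le_inv₀ (by linarith)).mpr hI₂1
    nlinarith
  have h4 : I₁⁻¹ * A₁ ≤ 97 * A₁ := by
    have : I₁⁻¹ ≤ 97 := by
      rw [inv_le_comm₀ (by linarith) (by norm_num)]
      linarith
    nlinarith
  linarith

/-- numeric contradiction -/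
lemma numeric_final : ∃ n : ℕ, 2 ≤ n ∧ (9409 : ℝ) <
    ((((106 : ℝ) / 105) * (2120 / 2121) ^ 20) ^ n * (2120 / 2121) ^ 21) ^ (n ^ 20) := by
  have h1 : (1 : ℝ) < ((106 : ℝ) / 105) * (2120 / 2121) ^ 20 := by norm_num
  obtain ⟨N, hN⟩ := pow_unbounded_of_one_lt (4 : ℝ) h1
  refine ⟨max N 2, le_max_right _ _, ?_⟩
  set n := max N 2 with hn
  have h2 : (4 : ℝ) < (((106 : ℝ) / 105) * (2120 / 2121) ^ 20) ^ n :=
    lt_of_lt_of_le hN (pow_le_pow_right₀ h1.le (le_max_left _ _))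
  have h3 : (1 / 2 : ℝ) ≤ (2120 / 2121) ^ 21 := by norm_num
  have h4 : (2 : ℝ) ≤ (((106 : ℝ) / 105) * (2120 / 2121) ^ 20) ^ n * (2120 / 2121) ^ 21 := by
    nlinarith
  have h5 : 2 ^ 20 ≤ n ^ 20 := Nat.pow_le_pow_left (le_max_right _ _) 20
  have h6 : n ^ 20 < 2 ^ (n ^ 20) := Nat.lt_two_pow_self
  have h7 : (9409 : ℝ) < 2 ^ (n ^ 20) := by
    have : 9409 < 2 ^ (n ^ 20) := by omega
    exact_mod_cast this
  exact lt_of_lt_of_le h7 (pow_le_pow_left₀ (by norm_num) h4 _)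

lemma theta_pos (p : unitInterval) (hp : (10 : ℝ) / 213 ≤ p) :
    0 < perc (20 + 1) p (infCluster (20 + 1)) := by
  have h2 : (0 : ℝ) < (perc (20 + 1) p).real (infCluster (20 + 1)) :=
    lt_of_lt_of_le (by norm_num) (theta_lower p hp)
  rw [measureReal_def] at h2
  exact (ENNReal.toReal_pos_iff.mp h2).1

theorem no_coupling : ∃ d : ℕ, 2 ≤ d ∧ ∃ p₁ p₂ : unitInterval, pc d < p₁ ∧ p₁ < p₂ ∧
    0 < perc d p₁ (infCluster d) ∧ 0 < perc d p₂ (infCluster d) ∧
    ∀ (Ω : Type*) [MeasurableSpace Ω] (P : Measure Ω) [IsProbabilityMeasure P]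
      (X₁ X₂ : Ω → Subgr d), Measurable X₁ → Measurable X₂ →
      P.map X₁ = condLaw d p₁ → P.map X₂ = condLaw d p₂ →
      P {ω | (X₁ ω).1 ⊆ (X₂ ω).1 ∧ (X₁ ω).2 ⊆ (X₂ ω).2} < 1 := by
  refine ⟨21, by norm_num, ⟨5 / 106, by norm_num, by norm_num⟩, ⟨1 / 21, by norm_num, by norm_num⟩,
    ?_, ?_, theta_pos _ (by norm_num), theta_pos _ (by norm_num), ?_⟩
  · refine lt_of_le_of_lt pc_le ?_
    norm_num
  · exact Subtype.mk_lt_mk.mpr (by norm_num)
  · intro Ω _ P _ X₁ X₂ hX₁ hX₂ hl₁ hl₂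
    refine lt_of_le_of_ne prob_le_one fun hone => ?_
    have hmeas : MeasurableSet {ω | (X₁ ω).1 ⊆ (X₂ ω).1 ∧ (X₁ ω).2 ⊆ (X₂ ω).2} := by
      have : {ω | (X₁ ω).1 ⊆ (X₂ ω).1 ∧ (X₁ ω).2 ⊆ (X₂ ω).2} =
          (⋂ x : V 21, {ω | x ∉ (X₁ ω).1} ∪ {ω | x ∈ (X₂ ω).1}) ∩
          (⋂ e : Edge 21, {ω | e ∉ (X₁ ω).2} ∪ {ω | e ∈ (X₂ ω).2}) := by
        ext ω
        simp only [Set.mem_inter_iff, Set.mem_iInter, Set.mem_union, Set.mem_ofPred_eq,
          Set.subset_def, imp_iff_not_or]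
      rw [this]
      refine MeasurableSet.inter (MeasurableSet.iInter fun x => MeasurableSet.union ?_ ?_)
        (MeasurableSet.iInter fun e => MeasurableSet.union ?_ ?_)
      · exact (measurable_fst.comp hX₁) (measurableSet_setOfPred.mpr (measurable_set_notMem x))
      · exact (measurable_fst.comp hX₂) (measurableSet_setOfPred.mpr (measurable_set_mem x))
      · exact (measurable_snd.comp hX₁) (measurableSet_setOfPred.mpr (measurable_set_notMem e))
      · exact (measurable_snd.comp hX₂) (measurableSet_setOfPred.mpr (measurable_set_mem e))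
    have hae : ∀ᵐ ω ∂P, (X₁ ω).1 ⊆ (X₂ ω).1 ∧ (X₁ ω).2 ⊆ (X₂ ω).2 :=
      (prob_compl_eq_zero_iff hmeas).mpr hone
    obtain ⟨n, hn2, hnum⟩ := numeric_final
    have hn : 0 < n := by omega
    have hcoup := avoid_le_of_coupling P X₁ X₂ hX₁ hX₂ hae (TT hn 20)
    rw [hl₁, hl₂] at hcoup
    have hkey := key_ineq (n := n) ⟨5 / 106, by norm_num, by norm_num⟩
      ⟨1 / 21, by norm_num, by norm_num⟩ (by norm_num) (by norm_num) hn hcoup
    simp only at hkey
    -- contradiction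
    have hT := card_TT hn 20
    set τ := (TT hn 20).card with hτ
    have hτle : τ ≤ 20 * n ^ 21 + 21 * n ^ 20 := by
      have : (20 + 1) * ((n + 1) * n ^ 20) = 21 * n ^ 21 + 21 * n ^ 20 := by ring
      rw [this] at hT
      have h21 : n ^ (20 + 1) = n ^ 21 := rfl
      rw [h21] at hT
      omega
    have e1 : (1 : ℝ) - 5 / 106 = 101 / 106 := by norm_num
    have e2 : (1 : ℝ) - 1 / 21 = 20 / 21 := by norm_num
    rw [e1, e2] at hkey
    have h3 : ((106 : ℝ) / 105) ^ (n ^ 21) * (2120 / 2121) ^ τ ≤ 9409 := by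
      have e3 : (1 / 21 : ℝ) = (106 / 105) * (5 / 106) := by norm_num
      have e4 : (20 / 21 : ℝ) = (2120 / 2121) * (101 / 106) := by norm_num
      rw [e3, e4, mul_pow, mul_pow] at hkey
      have hpos : (0 : ℝ) < (5 / 106) ^ (n ^ 21) * (101 / 106) ^ τ := by positivity
      have : (((106 : ℝ) / 105) ^ (n ^ 21) * (2120 / 2121) ^ τ) *
          ((5 / 106) ^ (n ^ 21) * (101 / 106) ^ τ) ≤
          9409 * ((5 / 106) ^ (n ^ 21) * (101 / 106) ^ τ) := by
        refine le_trans (le_of_eq ?_) hkey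
        ring
      exact le_of_mul_le_mul_right this hpos
    have h4 : ((106 : ℝ) / 105) ^ (n ^ 21) * (2120 / 2121) ^ (20 * n ^ 21 + 21 * n ^ 20) ≤
        ((106 : ℝ) / 105) ^ (n ^ 21) * (2120 / 2121) ^ τ := by
      refine mul_le_mul_of_nonneg_left ?_ (by positivity)
      exact pow_le_pow_of_le_one (by norm_num) (by norm_num) hτle
    have h5 : ((((106 : ℝ) / 105) * (2120 / 2121) ^ 20) ^ n * (2120 / 2121) ^ 21) ^ (n ^ 20) =
        ((106 : ℝ) / 105) ^ (n ^ 21) * (2120 / 2121) ^ (20 * n ^ 21 + 21 * n ^ 20) := by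
      rw [mul_pow, ← pow_mul, mul_pow, ← pow_mul, ← pow_mul, mul_assoc, ← pow_add]
      congr 2 <;> ring
    rw [h5] at hnum
    linarith

end Pool.Agent.H96Perc
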