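import Pool.Agent.H96Perc.SecondMoment
import Pool.Agent.H96Perc.Green

namespace Pool.Agent.H96Perc

variable {a : ℕ}

/-- difference of the oriented parts -/
def dA (x y : V (a + 1)) : Fin a → ℤ := fun i => x i.succ - y i.succ

lemma dA_nxt (x y : V (a + 1)) (m n : Fin 3 × Fin a) :
    dA (nxt x m) (nxt y n) = dA x y + Pi.single m.2 1 - Pi.single n.2 1 := by
  funext i
  simp only [dA, nxt_succ, Pi.add_apply, Pi.sub_apply, Pi.single_apply]
  ring

lemma inter_empty {x y : V (a + 1)} (h : dA x y ≠ 0) (m n : Fin 3 × Fin a) :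
    stepE x m ∩ stepE y n = ∅ := by
  by_contra hne
  obtain ⟨e, he⟩ := Finset.nonempty_iff_ne_empty.mpr hne
  rw [Finset.mem_inter] at he
  apply h
  funext i
  have h1 := stepE_base x m e he.1 i
  have h2 := stepE_base y n e he.2 i
  simp only [dA, Pi.zero_apply]
  omega

/-- indicator that the oriented edges start at the same vertex -/
def Kf (Z : ℤ) (s t : Fin 3) : ℕ := if Z + sv s = sv t then 1 else 0

/-- indicator that the two-sided edges coincide -/
def Bf (Z : ℤ) (s t : Fin 3) : ℕ :=
  if (s = 1 ∧ t = 1 ∧ Z = 0) ∨ (s = 2 ∧ t = 2 ∧ Z = 0) ∨ (s = 1 ∧ t = 2 ∧ Z = -1) ∨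
    (s = 2 ∧ t = 1 ∧ Z = 1) then 1 else 0

lemma bset_dir (x : V (a + 1)) (s : Fin 3) (e : Edge (a + 1)) (he : e ∈ bset x s) : e.2 = 0 := by
  unfold bset at he
  split_ifs at he
  · simp at he
  · rw [Finset.mem_singleton] at he; subst he; rfl
  · rw [Finset.mem_singleton] at he; subst he; rfl

lemma bset_inter_card (x y : V (a + 1)) (s t : Fin 3) :
    (bset x s ∩ bset y t).card ≤ Bf (x 0 - y 0) s t := by
  by_cases h : (bset x s ∩ bset y t) = ∅
  · rw [h]; simp
  · obtain ⟨e, he⟩ := Finset.nonempty_iff_ne_empty.mpr h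
    rw [Finset.mem_inter] at he
    obtain ⟨h1, h2⟩ := he
    have hc : (bset x s ∩ bset y t).card ≤ 1 := by
      refine (Finset.card_le_card Finset.inter_subset_left).trans ?_
      unfold bset; split_ifs <;> simp
    refine hc.trans ?_
    unfold Bf
    rw [if_pos]
    fin_cases s <;> fin_cases t <;> simp [bset] at h1 h2 ⊢
    · subst h1
      have := congrArg (fun e : Edge (a + 1) => e.1 0) h2
      simp at this; omega
    · subst h1
      have := congrArg (fun e : Edge (a + 1) => e.1 0) h2
      simp at this; omega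
    · subst h1
      have := congrArg (fun e : Edge (a + 1) => e.1 0) h2
      simp at this; omega
    · subst h1
      have := congrArg (fun e : Edge (a + 1) => e.1 0) h2
      simp at this; omega

lemma card_inter_le {x y : V (a + 1)} (s t : Fin 3) (i j : Fin a) :
    (stepE x (s, i) ∩ stepE y (t, j)).card ≤
      Bf (x 0 - y 0) s t + (if i = j then Kf (x 0 - y 0) s t else 0) := by
  classical
  have hsub : stepE x (s, i) ∩ stepE y (t, j) ⊆
      (bset x s ∩ bset y t) ∪ (if i = j then (if (x 0 - y 0) + sv s = sv t then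
        {(mid x s, i.succ)} else ∅) else ∅) := by
    intro e he
    rw [Finset.mem_inter] at he
    obtain ⟨h1, h2⟩ := he
    unfold stepE at h1 h2
    rw [Finset.mem_insert] at h1 h2
    rw [Finset.mem_union]
    rcases h1 with h1 | h1
    · rcases h2 with h2 | h2
      · right
        have h3 : (mid x s, i.succ) = (mid y t, j.succ) := h1.symm.trans h2
        have h4 : i = j := Fin.succ_injective _ (congrArg Prod.snd h3)
        have h5 : mid x s = mid y t := congrArg Prod.fst h3
        have h6 : x 0 + sv s = y 0 + sv t := by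
          have := congrFun h5 0
          simpa [mid] using this
        rw [if_pos h4, if_pos (by omega)]
        simpa using h1
      · exfalso
        have := bset_dir _ _ _ h2
        rw [h1] at this
        exact Fin.succ_ne_zero _ this
    · rcases h2 with h2 | h2
      · exfalso
        have := bset_dir _ _ _ h1
        rw [h2] at this
        exact Fin.succ_ne_zero _ this
      · left
        exact Finset.mem_inter.mpr ⟨h1, h2⟩
  refine (Finset.card_le_card hsub).trans ((Finset.card_union_le _ _).trans ?_)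
  refine Nat.add_le_add (bset_inter_card x y s t) ?_
  unfold Kf
  split_ifs <;> simp

/-- the weights of the first part of a macro-step -/
noncomputable def w0 : Fin 3 → ℝ := ![11 / 12, 1 / 24, 1 / 24]

lemma w0_nonneg (s : Fin 3) : 0 ≤ w0 s := by
  fin_cases s <;> simp [w0] <;> norm_num

lemma w0_sum : ∑ s, w0 s = 1 := by
  rw [Fin.sum_univ_three]; simp [w0]; norm_num

lemma numeric (Z : ℤ) :
    ∑ s : Fin 3, ∑ t : Fin 3, w0 s * w0 t *
      (1 / 20 * (((213 / 10 : ℝ) ^ (Bf Z s t + Kf Z s t) - 1) * (1 + 90 * (1057 / 1000))) +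
        19 / 20 * (((213 / 10 : ℝ) ^ (Bf Z s t) - 1) * (1 + 90 * (57 / 1000)))) ≤ 90 := by
  simp only [Fin.sum_univ_three]
  by_cases h0 : Z = 0
  · subst h0; simp [Bf, Kf, sv, w0]; norm_num
  by_cases h1 : Z = 1
  · subst h1; simp [Bf, Kf, sv, w0]; norm_num
  by_cases h2 : Z = -1
  · subst h2; simp [Bf, Kf, sv, w0]; norm_num
  by_cases h3 : Z = 2
  · subst h3; simp [Bf, Kf, sv, w0]; norm_num
  by_cases h4 : Z = -2
  · subst h4; simp [Bf, Kf, sv, w0]; norm_num
  have k1 : ¬ (Z + 1 = 0) := by omega
  have k2 : ¬ (Z + -1 = 0) := by omega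
  have k3 : ¬ (Z + 1 = -1) := by omega
  have k4 : ¬ (Z + -1 = 1) := by omega
  simp [Bf, Kf, sv, w0, h0, h1, h2, k1, k2, k3, k4]

lemma M_nonneg {w : Fin 3 → ℝ} {β : ℝ} (hw : ∀ s, 0 ≤ w s) (hβ : 0 ≤ β) (N : ℕ) :
    ∀ x y : V (a + 1), 0 ≤ M w β N x y := by
  induction N with
  | zero => intro x y; simp [M]
  | succ N ih =>
    intro x y
    unfold M
    refine Finset.sum_nonneg fun m _ => Finset.sum_nonneg fun n _ => ?_
    exact mul_nonneg (mul_nonneg (div_nonneg (hw _) (Nat.cast_nonneg _))
      (div_nonneg (hw _) (Nat.cast_nonneg _))) (mul_nonneg (pow_nonneg hβ _) (ih _ _))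

lemma M_mono {w : Fin 3 → ℝ} {β β' : ℝ} (hw : ∀ s, 0 ≤ w s) (hβ : 0 ≤ β) (hββ : β ≤ β') (N : ℕ) :
    ∀ x y : V (a + 1), M w β N x y ≤ M w β' N x y := by
  induction N with
  | zero => intro x y; simp [M]
  | succ N ih =>
    intro x y
    unfold M
    refine Finset.sum_le_sum fun m _ => Finset.sum_le_sum fun n _ => ?_
    refine mul_le_mul_of_nonneg_left ?_ (mul_nonneg (div_nonneg (hw _) (Nat.cast_nonneg _))
      (div_nonneg (hw _) (Nat.cast_nonneg _)))
    exact mul_le_mul (pow_le_pow_left₀ hβ hββ _) (ih _ _) (M_nonneg hw hβ N _ _)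
      (pow_nonneg (hβ.trans hββ) _)

lemma G_nonneg (N : ℕ) (v : Fin a → ℤ) : 0 ≤ G N v :=
  Finset.sum_nonneg fun n _ => Pr_nonneg n v

lemma G_succ (N : ℕ) (v : Fin a → ℤ) :
    G (N + 1) v = (if v = 0 then 1 else 0) +
      (∑ i : Fin a, ∑ j : Fin a, G N (v + Pi.single i 1 - Pi.single j 1)) / a / a := by
  unfold G
  rw [Finset.sum_range_succ', Pr_zero, add_comm]
  congr 1
  simp_rw [Pr_succ]
  rw [← Finset.sum_div, ← Finset.sum_div]
  congr 2
  rw [Finset.sum_comm]
  refine Finset.sum_congr rfl fun i _ => ?_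
  rw [Finset.sum_comm]

lemma G_ne_le (N : ℕ) {v : Fin 20 → ℤ} (hv : v ≠ 0) : G N v ≤ 57 / 1000 := by
  unfold G
  rcases Nat.eq_zero_or_pos N with h | h
  · subst h; norm_num
  · rw [Finset.range_eq_Ico, Finset.sum_eq_sum_Ico_succ_bot h, Pr_zero, if_neg hv, zero_add]
    exact sum_Pr_le N v

lemma G_le (N : ℕ) (v : Fin 20 → ℤ) : G N v ≤ 1057 / 1000 := by
  unfold G
  rcases Nat.eq_zero_or_pos N with h | h
  · subst h; norm_num
  · rw [Finset.range_eq_Ico, Finset.sum_eq_sum_Ico_succ_bot h, Pr_zero]
    have := sum_Pr_le N v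
    split_ifs <;> linarith

/-- rearrangement of a double sum over pairs of macro-steps -/
lemma sum_pairs (f : Fin 3 → Fin a → Fin 3 → Fin a → ℝ) :
    ∑ m : Fin 3 × Fin a, ∑ n : Fin 3 × Fin a, f m.1 m.2 n.1 n.2 =
      ∑ s : Fin 3, ∑ t : Fin 3, ∑ i : Fin a, ∑ j : Fin a, f s i t j := by
  rw [Fintype.sum_prod_type]
  refine Finset.sum_congr rfl fun s _ => ?_
  rw [Finset.sum_comm' (t' := Finset.univ) (s' := fun _ => Finset.univ) (by simp)]
  rw [Fintype.sum_prod_type]
  refine Finset.sum_congr rfl fun t _ => ?_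
  rw [Finset.sum_comm]

theorem M_le (N : ℕ) : ∀ x y : V (20 + 1),
    M w0 (213 / 10) N x y ≤ 1 + 90 * G N (dA x y) := by
  induction N with
  | zero => intro x y; simp [M, G]
  | succ N ih =>
    intro x y
    set g : Fin 20 → Fin 20 → ℝ := fun i j =>
      1 + 90 * G N (dA x y + Pi.single i 1 - Pi.single j 1) with hg
    have hg1 : ∀ i j, 1 ≤ g i j := fun i j => by
      have := G_nonneg N (dA x y + Pi.single i 1 - Pi.single j 1)
      simp only [hg]; linarith
    -- the average of `g`
    have havg : (∑ i : Fin 20, ∑ j : Fin 20, g i j) / 20 / 20 =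
        1 + 90 * (G (N + 1) (dA x y) - (if dA x y = 0 then 1 else 0)) := by
      rw [G_succ]
      simp only [hg, Finset.sum_add_distrib, Finset.sum_const, Finset.card_univ, Fintype.card_fin,
        nsmul_eq_mul, ← Finset.mul_sum]
      push_cast
      ring
    have hstep : M w0 (213 / 10) (N + 1) x y ≤
        ∑ s : Fin 3, ∑ t : Fin 3, ∑ i : Fin 20, ∑ j : Fin 20,
          (w0 s / 20 * (w0 t / 20)) *
            ((213 / 10 : ℝ) ^ (stepE x (s, i) ∩ stepE y (t, j)).card * g i j) := by
      have : M w0 (213 / 10) (N + 1) x y =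
          ∑ m : Fin 3 × Fin 20, ∑ n : Fin 3 × Fin 20, (w0 m.1 / 20 * (w0 n.1 / 20)) *
            ((213 / 10 : ℝ) ^ (stepE x (m.1, m.2) ∩ stepE y (n.1, n.2)).card *
              M w0 (213 / 10) N (nxt x (m.1, m.2)) (nxt y (n.1, n.2))) := by
        simp only [M]; norm_num
      rw [this, sum_pairs (fun s i t j => (w0 s / 20 * (w0 t / 20)) *
            ((213 / 10 : ℝ) ^ (stepE x (s, i) ∩ stepE y (t, j)).card *
              M w0 (213 / 10) N (nxt x (s, i)) (nxt y (t, j))))]
      refine Finset.sum_le_sum fun s _ => Finset.sum_le_sum fun t _ =>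
        Finset.sum_le_sum fun i _ => Finset.sum_le_sum fun j _ => ?_
      refine mul_le_mul_of_nonneg_left (mul_le_mul_of_nonneg_left ?_ (by positivity))
        (mul_nonneg (div_nonneg (w0_nonneg _) (by norm_num))
          (div_nonneg (w0_nonneg _) (by norm_num)))
      refine (ih _ _).trans ?_
      rw [dA_nxt]
    refine hstep.trans ?_
    by_cases hd : dA x y = 0
    · -- bound the inner double sum
      have hinner : ∀ s t : Fin 3, ∑ i : Fin 20, ∑ j : Fin 20,
          (w0 s / 20 * (w0 t / 20)) *
            ((213 / 10 : ℝ) ^ (stepE x (s, i) ∩ stepE y (t, j)).card * g i j) ≤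
          w0 s * w0 t * ((∑ i : Fin 20, ∑ j : Fin 20, g i j) / 20 / 20) +
          w0 s * w0 t *
            (1 / 20 * (((213 / 10 : ℝ) ^ (Bf (x 0 - y 0) s t + Kf (x 0 - y 0) s t) - 1) *
                (1 + 90 * (1057 / 1000))) +
              19 / 20 * (((213 / 10 : ℝ) ^ (Bf (x 0 - y 0) s t) - 1) *
                (1 + 90 * (57 / 1000)))) := by
        intro s t
        set B := Bf (x 0 - y 0) s t
        set K := Kf (x 0 - y 0) s t
        have hpt : ∀ i j : Fin 20,
            (213 / 10 : ℝ) ^ (stepE x (s, i) ∩ stepE y (t, j)).card * g i j ≤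
              g i j + (if i = j then ((213 / 10 : ℝ) ^ (B + K) - 1) * (1 + 90 * (1057 / 1000))
                else ((213 / 10 : ℝ) ^ B - 1) * (1 + 90 * (57 / 1000))) := by
          intro i j
          have hc := card_inter_le (x := x) (y := y) s t i j
          have hg0 : 0 ≤ g i j := le_trans zero_le_one (hg1 i j)
          by_cases hij : i = j
          · rw [if_pos hij] at hc ⊢
            have h1 : (213 / 10 : ℝ) ^ (stepE x (s, i) ∩ stepE y (t, j)).card ≤
                (213 / 10 : ℝ) ^ (B + K) := pow_le_pow_right₀ (by norm_num) hc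
            have h2 : g i j ≤ 1 + 90 * (1057 / 1000) := by
              have := G_le N (dA x y + Pi.single i 1 - Pi.single j 1)
              simp only [hg]; linarith
            have h3 : (0 : ℝ) ≤ (213 / 10 : ℝ) ^ (B + K) - 1 := by
              have := one_le_pow₀ (M₀ := ℝ) (a := 213 / 10) (n := B + K) (by norm_num)
              linarith
            nlinarith [mul_le_mul_of_nonneg_right h1 hg0, mul_le_mul_of_nonneg_left h2 h3]
          · rw [if_neg hij] at hc ⊢
            rw [add_zero] at hc
            have h1 : (213 / 10 : ℝ) ^ (stepE x (s, i) ∩ stepE y (t, j)).card ≤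
                (213 / 10 : ℝ) ^ B := pow_le_pow_right₀ (by norm_num) hc
            have h2 : g i j ≤ 1 + 90 * (57 / 1000) := by
              have hne : dA x y + Pi.single i 1 - Pi.single j 1 ≠ 0 := by
                rw [hd, zero_add]
                intro h0
                have := congrFun h0 i
                simp [hij] at this
              have := G_ne_le N hne
              simp only [hg]; linarith
            have h3 : (0 : ℝ) ≤ (213 / 10 : ℝ) ^ B - 1 := by
              have := one_le_pow₀ (M₀ := ℝ) (a := 213 / 10) (n := B) (by norm_num)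
              linarith
            nlinarith [mul_le_mul_of_nonneg_right h1 hg0, mul_le_mul_of_nonneg_left h2 h3]
        have hsum : ∑ i : Fin 20, ∑ j : Fin 20,
            (213 / 10 : ℝ) ^ (stepE x (s, i) ∩ stepE y (t, j)).card * g i j ≤
            ∑ i : Fin 20, ∑ j : Fin 20, g i j +
              (20 * (((213 / 10 : ℝ) ^ (B + K) - 1) * (1 + 90 * (1057 / 1000))) +
               380 * (((213 / 10 : ℝ) ^ B - 1) * (1 + 90 * (57 / 1000)))) := by
          refine (Finset.sum_le_sum fun i _ => Finset.sum_le_sum fun j _ => hpt i j).trans ?_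
          simp only [Finset.sum_add_distrib]
          have hcount : ∀ u v : ℝ, ∑ i : Fin 20, ∑ j : Fin 20, (if i = j then u else v) =
              20 * u + 380 * v := by
            intro u v
            have : ∀ i : Fin 20, ∑ j : Fin 20, (if i = j then u else v) = u + 19 * v := by
              intro i
              have h1 : ∀ j : Fin 20, (if i = j then u else v) = v + (if i = j then u - v else 0) := by
                intro j; split_ifs <;> ring
              simp_rw [h1]
              rw [Finset.sum_add_distrib, Finset.sum_ite_eq]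
              simp
              ring
            simp_rw [this]
            simp
            ring
          rw [hcount]
        have hw : 0 ≤ w0 s * w0 t := mul_nonneg (w0_nonneg _) (w0_nonneg _)
        calc ∑ i : Fin 20, ∑ j : Fin 20, (w0 s / 20 * (w0 t / 20)) *
              ((213 / 10 : ℝ) ^ (stepE x (s, i) ∩ stepE y (t, j)).card * g i j)
            = (w0 s * w0 t) * ((∑ i : Fin 20, ∑ j : Fin 20,
              (213 / 10 : ℝ) ^ (stepE x (s, i) ∩ stepE y (t, j)).card * g i j) / 400) := by
              simp only [← Finset.mul_sum]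
              ring
          _ ≤ (w0 s * w0 t) * ((∑ i : Fin 20, ∑ j : Fin 20, g i j +
              (20 * (((213 / 10 : ℝ) ^ (B + K) - 1) * (1 + 90 * (1057 / 1000))) +
               380 * (((213 / 10 : ℝ) ^ B - 1) * (1 + 90 * (57 / 1000))))) / 400) := by
              gcongr
          _ = _ := by ring
      refine (Finset.sum_le_sum fun s _ => Finset.sum_le_sum fun t _ => hinner s t).trans ?_
      simp only [Finset.sum_add_distrib]
      have hws : ∀ A : ℝ, ∑ s : Fin 3, ∑ t : Fin 3, w0 s * w0 t * A = A := by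
        intro A
        have : ∑ s : Fin 3, ∑ t : Fin 3, w0 s * w0 t * A = (∑ s, w0 s) * (∑ t, w0 t) * A := by
          rw [Finset.sum_mul_sum, Finset.sum_mul]
          refine Finset.sum_congr rfl fun s _ => ?_
          rw [Finset.sum_mul]
        rw [this, w0_sum]; ring
      rw [hws, havg, if_pos hd]
      have := numeric (x 0 - y 0)
      linarith
    · have hempty : ∀ (s t : Fin 3) (i j : Fin 20), (stepE x (s, i) ∩ stepE y (t, j)).card = 0 := by
        intro s t i j
        rw [inter_empty hd]; simp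
      simp only [hempty, pow_zero, one_mul]
      have : ∀ s t : Fin 3, ∑ i : Fin 20, ∑ j : Fin 20, w0 s / 20 * (w0 t / 20) * g i j =
          w0 s * w0 t * ((∑ i : Fin 20, ∑ j : Fin 20, g i j) / 20 / 20) := by
        intro s t
        simp only [← Finset.mul_sum]
        ring
      simp_rw [this]
      have hws : ∀ A : ℝ, ∑ s : Fin 3, ∑ t : Fin 3, w0 s * w0 t * A = A := by
        intro A
        have : ∑ s : Fin 3, ∑ t : Fin 3, w0 s * w0 t * A = (∑ s, w0 s) * (∑ t, w0 t) * A := by
          rw [Finset.sum_mul_sum, Finset.sum_mul]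
          refine Finset.sum_congr rfl fun s _ => ?_
          rw [Finset.sum_mul]
        rw [this, w0_sum]; ring
      rw [hws, havg, if_neg hd]
      linarith

end Pool.Agent.H96Perc
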