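import Pool.Agent.H96Perc.Basic

namespace Pool.Agent.H96Perc

open MeasureTheory ProbabilityTheory

variable {a : ℕ}

/-- displacement along the two-sided coordinate. -/
def sv : Fin 3 → ℤ := ![0, 1, -1]

def mid (x : V (a + 1)) (s : Fin 3) : V (a + 1) := x + Pi.single 0 (sv s)

def nxt (x : V (a + 1)) (m : Fin 3 × Fin a) : V (a + 1) :=
  mid x m.1 + Pi.single m.2.succ 1

def bset (x : V (a + 1)) (s : Fin 3) : Finset (Edge (a + 1)) :=
  if s = 0 then ∅ else if s = 1 then {(x, 0)} else {(x - Pi.single 0 1, 0)}

def stepE (x : V (a + 1)) (m : Fin 3 × Fin a) : Finset (Edge (a + 1)) :=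
  insert (mid x m.1, m.2.succ) (bset x m.1)

lemma mid_succ (x : V (a + 1)) (s : Fin 3) (i : Fin a) : mid x s i.succ = x i.succ := by
  simp [mid, Pi.single_apply, Fin.succ_ne_zero]

lemma nxt_succ (x : V (a + 1)) (m : Fin 3 × Fin a) (i : Fin a) :
    nxt x m i.succ = x i.succ + if i = m.2 then 1 else 0 := by
  simp [nxt, mid_succ, Pi.single_apply]

lemma nxt_zero (x : V (a + 1)) (m : Fin 3 × Fin a) :
    nxt x m 0 = x 0 + sv m.1 := by
  simp [nxt, mid, Pi.single_apply, (Fin.succ_ne_zero _).symm]

lemma stepE_base (x : V (a + 1)) (m : Fin 3 × Fin a) (e : Edge (a + 1)) (he : e ∈ stepE x m)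
    (i : Fin a) : e.1 i.succ = x i.succ := by
  unfold stepE bset at he
  rw [Finset.mem_insert] at he
  rcases he with rfl | he
  · exact mid_succ x m.1 i
  · split_ifs at he
    · simp at he
    · rw [Finset.mem_singleton] at he; subst he; rfl
    · rw [Finset.mem_singleton] at he; subst he
      simp [Pi.single_apply, Fin.succ_ne_zero]

/-- The edges of `S` are not in the cone of `x`. -/
def Below (S : Finset (Edge (a + 1))) (x : V (a + 1)) : Prop :=
  ∀ e ∈ S, ∃ i : Fin a, e.1 i.succ < x i.succ

lemma Below.nxt {S : Finset (Edge (a + 1))} {x : V (a + 1)} (h : Below S x)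
    (m : Fin 3 × Fin a) : Below S (nxt x m) := by
  intro e he
  obtain ⟨i, hi⟩ := h e he
  refine ⟨i, ?_⟩
  rw [nxt_succ]
  split_ifs <;> omega

lemma Below.disjoint {S : Finset (Edge (a + 1))} {x : V (a + 1)} (h : Below S x)
    (m : Fin 3 × Fin a) : Disjoint S (stepE x m) := by
  rw [Finset.disjoint_left]
  intro e he he'
  obtain ⟨i, hi⟩ := h e he
  rw [stepE_base x m e he' i] at hi
  exact lt_irrefl _ hi

/-- the level of a vertex -/
def lev (x : V (a + 1)) : ℤ := ∑ i : Fin a, x i.succ

lemma lev_nxt (x : V (a + 1)) (m : Fin 3 × Fin a) : lev (nxt x m) = lev x + 1 := by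
  unfold lev
  simp_rw [nxt_succ]
  rw [Finset.sum_add_distrib]
  simp

lemma below_stepE (x x' : V (a + 1)) (m m' : Fin 3 × Fin a) (h : lev x = lev x') :
    Below (stepE x m) (nxt x' m') := by
  intro e he
  by_contra hcon
  push Not at hcon
  have h1 : lev (nxt x' m') ≤ lev x := by
    unfold lev
    refine Finset.sum_le_sum fun i _ => ?_
    rw [← stepE_base x m e he i]
    exact hcon i
  rw [lev_nxt] at h1
  omega

lemma below_union {S T : Finset (Edge (a + 1))} {x : V (a + 1)} (h : Below S x)
    (h' : Below T x) [DecidableEq (Edge (a + 1))] : Below (S ∪ T) x := by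
  intro e he
  rcases Finset.mem_union.mp he with he | he
  · exact h e he
  · exact h' e he

/-- the event that all edges of `U` are open -/
def openSet {d : ℕ} (U : Finset (Edge d)) : Set (Config d) := {ω | ∀ e ∈ U, ω e = true}

lemma measurableSet_openSet {d : ℕ} (U : Finset (Edge d)) : MeasurableSet (openSet U) := by
  have : openSet U = (⋂ e ∈ U, {ω : Config d | ω e = true}) := by
    ext ω; simp [openSet]
  rw [this]
  exact (Finset.measurableSet_biInter U (fun e _ => measurableSet_edge e true))

section

variable (w : Fin 3 → ℝ) (β : ℝ)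

/-- weighted number of open semi-oriented paths with `N` macro-steps from `x` -/
noncomputable def W : ℕ → V (a + 1) → Config (a + 1) → ℝ
  | 0, _ => fun _ => 1
  | (N + 1), x => fun ω => ∑ m : Fin 3 × Fin a,
      (w m.1 / a * β ^ (stepE x m).card) * (openSet (stepE x m)).indicator (W N (nxt x m)) ω

/-- second moment kernel -/
noncomputable def M : ℕ → V (a + 1) → V (a + 1) → ℝ
  | 0, _, _ => 1
  | (N + 1), x, y => ∑ m : Fin 3 × Fin a, ∑ n : Fin 3 × Fin a,
      (w m.1 / a * (w n.1 / a)) * (β ^ (stepE x m ∩ stepE y n).card * M N (nxt x m) (nxt y n))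

variable {w β}

lemma measurable_W (N : ℕ) : ∀ x : V (a + 1), Measurable (W w β N x) := by
  induction N with
  | zero => intro x; exact measurable_const
  | succ N ih =>
    intro x
    unfold W
    refine Finset.measurable_sum _ fun m _ => ?_
    exact ((ih _).indicator (measurableSet_openSet _)).const_mul _

lemma W_nonneg (hw : ∀ s, 0 ≤ w s) (hβ : 0 ≤ β) (N : ℕ) :
    ∀ (x : V (a + 1)) (ω : Config (a + 1)), 0 ≤ W w β N x ω := by
  induction N with
  | zero => intro x ω; simp [W]
  | succ N ih =>
    intro x ω
    unfold W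
    refine Finset.sum_nonneg fun m _ => ?_
    refine mul_nonneg (mul_nonneg (div_nonneg (hw _) (Nat.cast_nonneg _)) (pow_nonneg hβ _)) ?_
    exact Set.indicator_nonneg (fun ω _ => ih _ ω) ω

lemma W_bdd (N : ℕ) : ∃ B : ℝ, ∀ (x : V (a + 1)) (ω : Config (a + 1)), |W w β N x ω| ≤ B := by
  induction N with
  | zero => exact ⟨1, fun x ω => by simp [W]⟩
  | succ N ih =>
    obtain ⟨B, hB⟩ := ih
    have hB0 : 0 ≤ B := le_trans (abs_nonneg _) (hB 0 (fun _ => true))
    refine ⟨∑ m : Fin 3 × Fin a, (|w m.1 / a| * (max 1 |β|) ^ 2 * B), fun x ω => ?_⟩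
    unfold W
    refine (Finset.abs_sum_le_sum_abs _ _).trans (Finset.sum_le_sum fun m _ => ?_)
    rw [abs_mul, abs_mul]
    have hc : (stepE x m).card ≤ 2 := by
      unfold stepE bset
      refine (Finset.card_insert_le _ _).trans ?_
      split_ifs <;> simp
    have h1 : |β ^ (stepE x m).card| ≤ (max 1 |β|) ^ 2 := by
      rw [abs_pow]
      calc |β| ^ (stepE x m).card ≤ (max 1 |β|) ^ (stepE x m).card :=
            pow_le_pow_left₀ (abs_nonneg _) (le_max_right _ _) _
        _ ≤ (max 1 |β|) ^ 2 := pow_le_pow_right₀ (le_max_left _ _) hc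
    have h2 : |(openSet (stepE x m)).indicator (W w β N (nxt x m)) ω| ≤ B := by
      by_cases h : ω ∈ openSet (stepE x m)
      · rw [Set.indicator_of_mem h]; exact hB _ _
      · rw [Set.indicator_of_notMem h]; simpa using hB0
    exact mul_le_mul (mul_le_mul_of_nonneg_left h1 (abs_nonneg _)) h2 (abs_nonneg _)
      (by positivity)

variable (p : unitInterval)

lemma integrable_W (N : ℕ) (x : V (a + 1)) : Integrable (W w β N x) (perc (a + 1) p) := by
  obtain ⟨B, hB⟩ := W_bdd (a := a) (w := w) (β := β) N
  exact Integrable.of_bound (measurable_W N x).aestronglyMeasurable B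
    (Filter.Eventually.of_forall fun ω => hB x ω)

lemma integrable_WW (N : ℕ) (x y : V (a + 1)) :
    Integrable (fun ω => W w β N x ω * W w β N y ω) (perc (a + 1) p) := by
  obtain ⟨B, hB⟩ := W_bdd (a := a) (w := w) (β := β) N
  refine Integrable.of_bound ((measurable_W N x).mul (measurable_W N y)).aestronglyMeasurable
    (B * B) (Filter.Eventually.of_forall fun ω => ?_)
  rw [Real.norm_eq_abs, abs_mul]
  exact mul_le_mul (hB x ω) (hB y ω) (abs_nonneg _) (le_trans (abs_nonneg _) (hB x ω))

lemma first_moment (hβ : (p : ℝ) * β = 1) (hw1 : ∑ s, w s = 1) (ha : 0 < a) (N : ℕ) :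
    ∀ (x : V (a + 1)) (S T : Finset (Edge (a + 1))), Disjoint S T → Below S x → Below T x →
      ∫ ω in cyl S T, W w β N x ω ∂(perc (a + 1) p) =
        (p : ℝ) ^ S.card * (1 - (p : ℝ)) ^ T.card := by
  classical
  induction N with
  | zero =>
    intro x S T h _ _
    simp only [W]
    rw [setIntegral_const, perc_cyl p S T h]
    simp
  | succ N ih =>
    intro x S T h hS hT
    unfold W
    rw [integral_finset_sum _ (fun m _ => by
      refine Integrable.const_mul ?_ _
      exact ((integrable_W p N (nxt x m)).indicator (measurableSet_openSet _)).integrableOn)]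
    have key : ∀ m : Fin 3 × Fin a,
        ∫ ω in cyl S T, (w m.1 / a * β ^ (stepE x m).card) *
          (openSet (stepE x m)).indicator (W w β N (nxt x m)) ω ∂(perc (a + 1) p) =
        (w m.1 / a) * ((p : ℝ) ^ S.card * (1 - (p : ℝ)) ^ T.card) := by
      intro m
      rw [integral_const_mul, setIntegral_indicator (measurableSet_openSet _)]
      have hset : cyl S T ∩ openSet (stepE x m) = cyl (S ∪ stepE x m) T :=
        cyl_inter_open S T (stepE x m)
      rw [hset, ih (nxt x m) (S ∪ stepE x m) T ?_ ?_ ?_]
      · rw [Finset.card_union_of_disjoint (hS.disjoint m), pow_add]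
        have : β ^ (stepE x m).card * (p : ℝ) ^ (stepE x m).card = 1 := by
          rw [← mul_pow, mul_comm β, hβ, one_pow]
        calc w m.1 / a * β ^ (stepE x m).card *
              ((p : ℝ) ^ S.card * (p : ℝ) ^ (stepE x m).card * (1 - (p : ℝ)) ^ T.card)
            = w m.1 / a * (β ^ (stepE x m).card * (p : ℝ) ^ (stepE x m).card) *
              ((p : ℝ) ^ S.card * (1 - (p : ℝ)) ^ T.card) := by ring
          _ = _ := by rw [this]; ring
      · rw [Finset.disjoint_union_left]
        exact ⟨h, (hT.disjoint m).symm⟩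
      · exact below_union (hS.nxt m) (below_stepE x x m m rfl)
      · exact hT.nxt m
    rw [Finset.sum_congr rfl (fun m _ => key m), ← Finset.sum_mul]
    have : ∑ m : Fin 3 × Fin a, w m.1 / (a : ℝ) = 1 := by
      rw [Fintype.sum_prod_type]
      have ha' : (a : ℝ) ≠ 0 := by positivity
      simp only [Finset.sum_const, Finset.card_univ, Fintype.card_fin, nsmul_eq_mul]
      rw [← hw1]
      refine Finset.sum_congr rfl fun s _ => ?_
      field_simp
    rw [this, one_mul]

lemma second_moment (hβ : (p : ℝ) * β = 1) (N : ℕ) :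
    ∀ (x y : V (a + 1)) (S T : Finset (Edge (a + 1))), lev x = lev y → Disjoint S T →
      Below S x → Below T x → Below S y → Below T y →
      ∫ ω in cyl S T, W w β N x ω * W w β N y ω ∂(perc (a + 1) p) =
        (p : ℝ) ^ S.card * (1 - (p : ℝ)) ^ T.card * M w β N x y := by
  classical
  induction N with
  | zero =>
    intro x y S T _ h _ _ _ _
    simp only [W, M]
    rw [setIntegral_const, perc_cyl p S T h]
    simp
  | succ N ih =>
    intro x y S T hxy h hS hT hS' hT'
    have hexp : ∀ ω, W w β (N + 1) x ω * W w β (N + 1) y ω =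
        ∑ m : Fin 3 × Fin a, ∑ n : Fin 3 × Fin a,
          ((w m.1 / a * β ^ (stepE x m).card) * (w n.1 / a * β ^ (stepE y n).card)) *
          (openSet (stepE x m) ∩ openSet (stepE y n)).indicator
            (fun ω => W w β N (nxt x m) ω * W w β N (nxt y n) ω) ω := by
      intro ω
      simp only [W]
      rw [Finset.sum_mul_sum]
      refine Finset.sum_congr rfl fun m _ => Finset.sum_congr rfl fun n _ => ?_
      rw [Set.inter_indicator_mul]
      ring
    simp_rw [hexp]
    have hint : ∀ m n : Fin 3 × Fin a, Integrable (fun ω =>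
        ((w m.1 / a * β ^ (stepE x m).card) * (w n.1 / a * β ^ (stepE y n).card)) *
          (openSet (stepE x m) ∩ openSet (stepE y n)).indicator
            (fun ω => W w β N (nxt x m) ω * W w β N (nxt y n) ω) ω)
          ((perc (a + 1) p).restrict (cyl S T)) := by
      intro m n
      refine Integrable.const_mul ?_ _
      exact ((integrable_WW p N (nxt x m) (nxt y n)).indicator
        ((measurableSet_openSet _).inter (measurableSet_openSet _))).integrableOn
    rw [integral_finset_sum _ (fun m _ => integrable_finset_sum _ (fun n _ => hint m n))]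
    simp only [M]
    rw [Finset.mul_sum]
    refine Finset.sum_congr rfl fun m _ => ?_
    rw [integral_finset_sum _ (fun n _ => hint m n), Finset.mul_sum]
    refine Finset.sum_congr rfl fun n _ => ?_
    rw [integral_const_mul, setIntegral_indicator
      ((measurableSet_openSet _).inter (measurableSet_openSet _))]
    have hset : cyl S T ∩ (openSet (stepE x m) ∩ openSet (stepE y n)) =
        cyl (S ∪ (stepE x m ∪ stepE y n)) T := by
      rw [← cyl_inter_open]
      congr 1
      ext ω
      simp only [openSet, Set.mem_inter_iff, Set.mem_setOf_eq, Finset.mem_union]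
      constructor
      · rintro ⟨h1, h2⟩ e he
        exact he.elim (h1 e) (h2 e)
      · intro h1
        exact ⟨fun e he => h1 e (Or.inl he), fun e he => h1 e (Or.inr he)⟩
    rw [hset, ih (nxt x m) (nxt y n) (S ∪ (stepE x m ∪ stepE y n)) T ?_ ?_ ?_ ?_ ?_ ?_]
    · have hd : Disjoint S (stepE x m ∪ stepE y n) := by
        rw [Finset.disjoint_union_right]
        exact ⟨hS.disjoint m, hS'.disjoint n⟩
      rw [Finset.card_union_of_disjoint hd, pow_add]
      have hcard : (stepE x m).card + (stepE y n).card =
          (stepE x m ∪ stepE y n).card + (stepE x m ∩ stepE y n).card :=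
        (Finset.card_union_add_card_inter _ _).symm
      have h1 : β ^ (stepE x m).card * β ^ (stepE y n).card *
          (p : ℝ) ^ (stepE x m ∪ stepE y n).card = β ^ (stepE x m ∩ stepE y n).card := by
        rw [← pow_add, hcard, pow_add]
        have : β ^ (stepE x m ∪ stepE y n).card * (p : ℝ) ^ (stepE x m ∪ stepE y n).card = 1 := by
          rw [← mul_pow, mul_comm β, hβ, one_pow]
        calc β ^ (stepE x m ∪ stepE y n).card * β ^ (stepE x m ∩ stepE y n).card *
              (p : ℝ) ^ (stepE x m ∪ stepE y n).card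
            = (β ^ (stepE x m ∪ stepE y n).card * (p : ℝ) ^ (stepE x m ∪ stepE y n).card) *
              β ^ (stepE x m ∩ stepE y n).card := by ring
          _ = _ := by rw [this, one_mul]
      calc w m.1 / ↑a * β ^ (stepE x m).card * (w n.1 / ↑a * β ^ (stepE y n).card) *
            ((p : ℝ) ^ S.card * (p : ℝ) ^ (stepE x m ∪ stepE y n).card * (1 - (p : ℝ)) ^ T.card *
              M w β N (nxt x m) (nxt y n))
          = (p : ℝ) ^ S.card * (1 - (p : ℝ)) ^ T.card * (w m.1 / ↑a * (w n.1 / ↑a) *
            ((β ^ (stepE x m).card * β ^ (stepE y n).card *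
          (p : ℝ) ^ (stepE x m ∪ stepE y n).card) * M w β N (nxt x m) (nxt y n))) := by ring
        _ = _ := by rw [h1]
    · rw [lev_nxt, lev_nxt, hxy]
    · rw [Finset.disjoint_union_left, Finset.disjoint_union_left]
      exact ⟨h, (hT.disjoint m).symm, (hT'.disjoint n).symm⟩
    · exact below_union (hS.nxt m)
        (below_union (below_stepE x x m m rfl) (below_stepE y x n m hxy.symm))
    · exact hT.nxt m
    · exact below_union (hS'.nxt n)
        (below_union (below_stepE x y m n hxy) (below_stepE y y n n rfl))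
    · exact hT'.nxt n

end

end Pool.Agent.H96Perc
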