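import Pool.Agent.H96Perc.Basic

namespace Pool.Agent.H96Perc

/-- the space-filling (boustrophedon) path -/
def snake (n : ℕ) : (k : ℕ) → ℕ → (Fin k → ℤ)
  | 0, _ => fun _ => 0
  | (k + 1), t => Fin.snoc (α := fun _ => ℤ)
      (snake n k (if (t / n ^ k) % 2 = 0 then t % n ^ k else n ^ k - 1 - t % n ^ k))
      ((t / n ^ k : ℕ) : ℤ)

lemma snake_succ_last (n k t : ℕ) : snake n (k + 1) t (Fin.last k) = ((t / n ^ k : ℕ) : ℤ) := by
  simp [snake]

lemma snake_succ_castSucc (n k t : ℕ) (i : Fin k) : snake n (k + 1) t i.castSucc =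
    snake n k (if (t / n ^ k) % 2 = 0 then t % n ^ k else n ^ k - 1 - t % n ^ k) i := by
  simp [snake]

lemma snake_zero {n : ℕ} (k : ℕ) : snake n k 0 = 0 := by
  induction k with
  | zero => rfl
  | succ k ih =>
    funext i
    refine Fin.lastCases ?_ (fun i => ?_) i
    · rw [snake_succ_last]; simp
    · rw [snake_succ_castSucc]; simp [ih]

/-- inner index -/
def inner (n k t : ℕ) : ℕ := if (t / n ^ k) % 2 = 0 then t % n ^ k else n ^ k - 1 - t % n ^ k

lemma inner_lt {n : ℕ} (hn : 0 < n) (k t : ℕ) : inner n k t < n ^ k := by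
  have h0 : 0 < n ^ k := by positivity
  have h := Nat.mod_lt t h0
  unfold inner
  generalize t % n ^ k = r at *
  generalize n ^ k = M at *
  split_ifs <;> omega

lemma snake_mem {n : ℕ} (hn : 0 < n) (k : ℕ) : ∀ t, t < n ^ k → ∀ i, 0 ≤ snake n k t i ∧
    snake n k t i < n := by
  induction k with
  | zero => intro t _ i; exact i.elim0
  | succ k ih =>
    intro t ht i
    refine Fin.lastCases ?_ (fun i => ?_) i
    · rw [snake_succ_last]
      refine ⟨by positivity, ?_⟩
      have : t / n ^ k < n := by
        apply Nat.div_lt_of_lt_mul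
        rw [pow_succ] at ht
        exact ht
      exact_mod_cast this
    · rw [snake_succ_castSucc]
      exact ih _ (inner_lt hn k t) i

lemma snake_inj_aux {n : ℕ} (hn : 0 < n) (k : ℕ)
    (ih : ∀ s t, s < n ^ k → t < n ^ k → snake n k s = snake n k t → s = t) :
    ∀ s t, snake n (k + 1) s = snake n (k + 1) t → s = t := by
  intro s t h
  have h0 : 0 < n ^ k := by positivity
  have h1 : s / n ^ k = t / n ^ k := by
    have := congrFun h (Fin.last k)
    rw [snake_succ_last, snake_succ_last] at this
    exact_mod_cast this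
  have h2 : snake n k (inner n k s) = snake n k (inner n k t) := by
    funext i
    have := congrFun h i.castSucc
    rwa [snake_succ_castSucc, snake_succ_castSucc] at this
  have h3 := ih _ _ (inner_lt hn k s) (inner_lt hn k t) h2
  have h4 : s % n ^ k = t % n ^ k := by
    have hs := Nat.mod_lt s h0
    have ht := Nat.mod_lt t h0
    unfold inner at h3
    rw [h1] at h3
    generalize t % n ^ k = r at *
    generalize s % n ^ k = r' at *
    generalize n ^ k = M at *
    split_ifs at h3 <;> omega
  rw [← Nat.div_add_mod s (n ^ k), ← Nat.div_add_mod t (n ^ k), h1, h4]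

lemma snake_inj {n : ℕ} (hn : 0 < n) (k : ℕ) :
    ∀ s t, s < n ^ k → t < n ^ k → snake n k s = snake n k t → s = t := by
  induction k with
  | zero => intro s t hs ht _; simp at hs ht; omega
  | succ k ih => intro s t _ _ h; exact snake_inj_aux hn k ih s t h

lemma snake_inj' {n : ℕ} (hn : 0 < n) (k : ℕ) (s t : ℕ)
    (h : snake n (k + 1) s = snake n (k + 1) t) : s = t :=
  snake_inj_aux hn k (snake_inj hn k) s t h

/-- neighbouring vertices -/
def Nbr {k : ℕ} (x y : Fin k → ℤ) : Prop :=
  ∃ i, y = x + Pi.single i 1 ∨ x = y + Pi.single i 1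

lemma Nbr.symm {k : ℕ} {x y : Fin k → ℤ} (h : Nbr x y) : Nbr y x := by
  obtain ⟨i, h | h⟩ := h
  · exact ⟨i, Or.inr h⟩
  · exact ⟨i, Or.inl h⟩

lemma snake_nbr_aux {n : ℕ} (hn : 0 < n) (k : ℕ)
    (ih : ∀ t, t + 1 < n ^ k → Nbr (snake n k t) (snake n k (t + 1))) :
    ∀ t, Nbr (snake n (k + 1) t) (snake n (k + 1) (t + 1)) := by
  intro t
  have h0 : 0 < n ^ k := by positivity
  have hmod := Nat.mod_lt t h0
  have hdm := Nat.div_add_mod t (n ^ k)
  by_cases hcase : t % n ^ k + 1 < n ^ k
  · -- same block
    have hq : (t + 1) / n ^ k = t / n ^ k := by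
      apply Nat.div_eq_of_lt_le
      · rw [mul_comm]
        generalize n ^ k * (t / n ^ k) = A at *
        generalize t % n ^ k = r at *
        omega
      · have : (t / n ^ k + 1) * n ^ k = n ^ k * (t / n ^ k) + n ^ k := by ring
        rw [this]
        generalize n ^ k * (t / n ^ k) = A at *
        generalize t % n ^ k = r at *
        generalize n ^ k = M at *
        omega
    have hr : (t + 1) % n ^ k = t % n ^ k + 1 := by
      have h2 := Nat.div_add_mod (t + 1) (n ^ k)
      rw [hq] at h2
      generalize n ^ k * (t / n ^ k) = A at *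
      generalize t % n ^ k = r at *
      generalize (t + 1) % n ^ k = r' at *
      omega
    have hin : Nbr (snake n k (inner n k t)) (snake n k (inner n k (t + 1))) := by
      unfold inner
      rw [hq, hr]
      split_ifs
      · exact ih _ hcase
      · have h3 : n ^ k - 1 - t % n ^ k = (n ^ k - 1 - (t % n ^ k + 1)) + 1 := by
          generalize t % n ^ k = r at *
          generalize n ^ k = M at *
          omega
        rw [h3]
        refine (ih _ ?_).symm
        rw [← h3]
        generalize t % n ^ k = r at *
        generalize n ^ k = M at *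
        omega
    obtain ⟨i, hi⟩ := hin
    refine ⟨i.castSucc, ?_⟩
    rcases hi with hi | hi
    · left
      funext j
      refine Fin.lastCases ?_ (fun j => ?_) j
      · rw [Pi.add_apply, snake_succ_last, snake_succ_last, hq]
        simp [Pi.single_apply, (Fin.castSucc_lt_last i).ne']
      · rw [Pi.add_apply, snake_succ_castSucc, snake_succ_castSucc]
        have := congrFun hi j
        unfold inner at this
        rw [this, Pi.add_apply]
        simp [Pi.single_apply]
    · right
      funext j
      refine Fin.lastCases ?_ (fun j => ?_) j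
      · rw [Pi.add_apply, snake_succ_last, snake_succ_last, hq]
        simp [Pi.single_apply, (Fin.castSucc_lt_last i).ne']
      · rw [Pi.add_apply, snake_succ_castSucc, snake_succ_castSucc]
        have := congrFun hi j
        unfold inner at this
        rw [this, Pi.add_apply]
        simp [Pi.single_apply]
  · -- junction
    have hlast : t % n ^ k = n ^ k - 1 := by
      generalize t % n ^ k = r at *
      generalize n ^ k = M at *
      omega
    have hq : (t + 1) / n ^ k = t / n ^ k + 1 := by
      apply Nat.div_eq_of_lt_le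
      · have : (t / n ^ k + 1) * n ^ k = n ^ k * (t / n ^ k) + n ^ k := by ring
        rw [this]
        generalize n ^ k * (t / n ^ k) = A at *
        generalize t % n ^ k = r at *
        generalize n ^ k = M at *
        omega
      · have : (t / n ^ k + 1 + 1) * n ^ k = n ^ k * (t / n ^ k) + n ^ k + n ^ k := by ring
        rw [this]
        generalize n ^ k * (t / n ^ k) = A at *
        generalize t % n ^ k = r at *
        generalize n ^ k = M at *
        omega
    have hr : (t + 1) % n ^ k = 0 := by
      have h2 := Nat.div_add_mod (t + 1) (n ^ k)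
      have h3 : n ^ k * (t / n ^ k + 1) = n ^ k * (t / n ^ k) + n ^ k := by ring
      rw [hq, h3] at h2
      generalize n ^ k * (t / n ^ k) = A at *
      generalize t % n ^ k = r at *
      generalize (t + 1) % n ^ k = r' at *
      generalize n ^ k = M at *
      omega
    have hin : inner n k t = inner n k (t + 1) := by
      unfold inner
      rw [hq, hr, hlast]
      generalize t / n ^ k = q at *
      generalize n ^ k = M at *
      split_ifs <;> omega
    refine ⟨Fin.last k, Or.inl ?_⟩
    funext j
    refine Fin.lastCases ?_ (fun j => ?_) j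
    · rw [Pi.add_apply, snake_succ_last, snake_succ_last, hq]
      simp
    · rw [Pi.add_apply, snake_succ_castSucc, snake_succ_castSucc]
      unfold inner at hin
      rw [hin]
      simp [Pi.single_apply, (Fin.castSucc_lt_last j).ne]

lemma snake_nbr {n : ℕ} (hn : 0 < n) (k : ℕ) :
    ∀ t, t + 1 < n ^ k → Nbr (snake n k t) (snake n k (t + 1)) := by
  induction k with
  | zero => intro t ht; simp at ht
  | succ k ih => intro t _; exact snake_nbr_aux hn k ih t

lemma snake_nbr' {n : ℕ} (hn : 0 < n) (k t : ℕ) :
    Nbr (snake n (k + 1) t) (snake n (k + 1) (t + 1)) :=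
  snake_nbr_aux hn k (snake_nbr hn k) t

lemma snake_surj {n : ℕ} (hn : 0 < n) (k : ℕ) : ∀ x : Fin k → ℤ, (∀ i, 0 ≤ x i ∧ x i < n) →
    ∃ t, t < n ^ k ∧ snake n k t = x := by
  induction k with
  | zero => intro x _; exact ⟨0, by simp, by funext i; exact i.elim0⟩
  | succ k ih =>
    intro x hx
    obtain ⟨r, hr, hrx⟩ := ih (fun i => x i.castSucc) (fun i => hx i.castSucc)
    obtain ⟨q, hq⟩ : ∃ q : ℕ, x (Fin.last k) = q :=
      ⟨(x (Fin.last k)).toNat, (Int.toNat_of_nonneg (hx _).1).symm⟩
    have hqn : q < n := by
      have := (hx (Fin.last k)).2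
      rw [hq] at this
      exact_mod_cast this
    have h0 : 0 < n ^ k := by positivity
    set r' := if q % 2 = 0 then r else n ^ k - 1 - r with hr'
    have hr'lt : r' < n ^ k := by rw [hr']; split_ifs <;> omega
    have hdiv : (n ^ k * q + r') / n ^ k = q := by
      rw [Nat.mul_add_div h0, Nat.div_eq_of_lt hr'lt, add_zero]
    have hmod : (n ^ k * q + r') % n ^ k = r' := by
      rw [Nat.mul_add_mod, Nat.mod_eq_of_lt hr'lt]
    refine ⟨n ^ k * q + r', ?_, ?_⟩
    · rw [pow_succ]
      calc n ^ k * q + r' < n ^ k * q + n ^ k := by omega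
        _ = n ^ k * (q + 1) := by ring
        _ ≤ n ^ k * n := Nat.mul_le_mul_left _ hqn
    · funext i
      refine Fin.lastCases ?_ (fun i => ?_) i
      · rw [snake_succ_last, hdiv, hq]
      · rw [snake_succ_castSucc, hdiv, hmod]
        have : (if q % 2 = 0 then r' else n ^ k - 1 - r') = r := by
          rw [hr']; split_ifs <;> omega
        rw [this, hrx]

end Pool.Agent.H96Perc
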