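import Pool.Agent.H96Perc.MBound

namespace Pool.Agent.H96Perc

open MeasureTheory ProbabilityTheory

variable {a : ℕ}

lemma reach_mid (ω : Config (a + 1)) (x : V (a + 1)) (m : Fin 3 × Fin a)
    (h : ω ∈ openSet (stepE x m)) : Relation.ReflTransGen (OpenAdj ω) x (mid x m.1) := by
  obtain ⟨s, i⟩ := m
  have hb : ∀ e ∈ bset x s, ω e = true := fun e he => h e (Finset.mem_insert_of_mem he)
  fin_cases s
  · have : mid x 0 = x := by
      unfold mid sv; simp
    simp only [Fin.zero_eta, this]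
    exact Relation.ReflTransGen.refl
  · have h1 : ω (x, 0) = true := hb _ (by simp [bset])
    refine Relation.ReflTransGen.single ⟨(x, 0), h1, Or.inl ⟨rfl, ?_⟩⟩
    unfold mid sv; simp
  · have h1 : ω (x - Pi.single 0 1, 0) = true := hb _ (by simp [bset])
    refine Relation.ReflTransGen.single ⟨(x - Pi.single 0 1, 0), h1, Or.inr ⟨?_, ?_⟩⟩
    · unfold mid sv
      simp [sub_eq_add_neg, Pi.single_neg]
    · simp

lemma reach_nxt (ω : Config (a + 1)) (x : V (a + 1)) (m : Fin 3 × Fin a)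
    (h : ω ∈ openSet (stepE x m)) : Relation.ReflTransGen (OpenAdj ω) x (nxt x m) := by
  refine (reach_mid ω x m h).tail ⟨(mid x m.1, m.2.succ), h _ (Finset.mem_insert_self _ _), ?_⟩
  exact Or.inl ⟨rfl, rfl⟩

lemma exists_reach_of_W_pos {w : Fin 3 → ℝ} {β : ℝ} (hw : ∀ s, 0 ≤ w s) (hβ : 0 ≤ β) (N : ℕ)
    (ω : Config (a + 1)) : ∀ x : V (a + 1), 0 < W w β N x ω →
      ∃ z, Relation.ReflTransGen (OpenAdj ω) x z ∧ lev z = lev x + N := by
  induction N with
  | zero => intro x _; exact ⟨x, Relation.ReflTransGen.refl, by simp⟩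
  | succ N ih =>
    intro x hx
    unfold W at hx
    obtain ⟨m, _, hm⟩ := Finset.exists_ne_zero_of_sum_ne_zero (ne_of_gt hx)
    have h1 := right_ne_zero_of_mul hm
    have hmem : ω ∈ openSet (stepE x m) := by
      by_contra hcon
      exact h1 (Set.indicator_of_notMem hcon _)
    rw [Set.indicator_of_mem hmem] at h1
    have h2 : 0 < W w β N (nxt x m) ω := lt_of_le_of_ne (W_nonneg hw hβ N _ ω) (Ne.symm h1)
    obtain ⟨z, hz, hlev⟩ := ih (nxt x m) h2
    refine ⟨z, (reach_nxt ω x m hmem).trans hz, ?_⟩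
    rw [hlev, lev_nxt]; push_cast; ring

/-- the event that the cluster of `0` contains a vertex at level at least `L`. -/
def reachLev (L : ℤ) : Set (Config (a + 1)) :=
  {ω | ∃ z, z ∈ clusterV ω ∧ L ≤ lev z}

lemma measurableSet_reachLev (L : ℤ) : MeasurableSet (reachLev (a := a) L) := by
  have : reachLev (a := a) L = ⋃ z : V (a + 1), ⋃ _ : L ≤ lev z, {ω | z ∈ clusterV ω} := by
    ext ω; simp [reachLev, and_comm]
  rw [this]
  exact MeasurableSet.iUnion fun z => MeasurableSet.iUnion fun _ => measurableSet_mem_clusterV z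

lemma iInter_reachLev_subset (L : ℤ) : (⋂ N : ℕ, reachLev (a := a) (L + N)) ⊆ infCluster (a + 1) := by
  intro ω hω
  rw [Set.mem_iInter] at hω
  intro hfin
  obtain ⟨B, hB⟩ := (hfin.image lev).bddAbove
  obtain ⟨z, hz, hlev⟩ := hω ((B - L + 1).toNat)
  have h1 : lev z ≤ B := hB ⟨z, hz, rfl⟩
  have h2 : (B - L + 1) ≤ ((B - L + 1).toNat : ℤ) := Int.self_le_toNat _
  omega

/-- Second-moment lower bound at finite depth. -/
lemma pos_lower (p : unitInterval) (hp : (10 : ℝ) / 213 ≤ p) (N : ℕ) (y : V (20 + 1))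
    (S T : Finset (Edge (20 + 1))) (hST : Disjoint S T) (hS : Below S y) (hT : Below T y) :
    ((p : ℝ) ^ S.card * (1 - (p : ℝ)) ^ T.card) / 97 ≤
      (perc (20 + 1) p).real (cyl S T ∩ {ω | 0 < W w0 (1 / (p : ℝ)) N y ω}) := by
  have hp0 : (0 : ℝ) < p := lt_of_lt_of_le (by norm_num) hp
  have hβ : (p : ℝ) * (1 / (p : ℝ)) = 1 := by field_simp
  have hβ0 : (0 : ℝ) ≤ 1 / (p : ℝ) := by positivity
  have hβle : 1 / (p : ℝ) ≤ 213 / 10 := by
    rw [div_le_iff₀ hp0]
    linarith
  set P := (p : ℝ) ^ S.card * (1 - (p : ℝ)) ^ T.card with hP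
  have hP0 : 0 ≤ P := mul_nonneg (by positivity) (pow_nonneg (by linarith [p.2.2]) _)
  have h1 := first_moment p hβ w0_sum (by norm_num : 0 < 20) N y S T hST hS hT
  have h2 := second_moment (w := w0) p hβ N y y S T rfl hST hS hT hS hT
  have hM : M w0 (1 / (p : ℝ)) N y y ≤ 97 := by
    refine (M_mono w0_nonneg hβ0 hβle N y y).trans ((M_le N y y).trans ?_)
    have := G_le N (dA y y)
    linarith
  set X := {ω : Config (20 + 1) | 0 < W w0 (1 / (p : ℝ)) N y ω} with hX
  have hXm : MeasurableSet X := measurableSet_lt measurable_const (measurable_W N y)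
  -- pointwise inequality
  have hpt : ∀ ω, W w0 (1 / (p : ℝ)) N y ω ≤
      (1 / 194) * (W w0 (1 / (p : ℝ)) N y ω * W w0 (1 / (p : ℝ)) N y ω) +
        X.indicator (fun _ => (97 / 2 : ℝ)) ω := by
    intro ω
    by_cases hω : ω ∈ X
    · rw [Set.indicator_of_mem hω]
      nlinarith [sq_nonneg (W w0 (1 / (p : ℝ)) N y ω - 97)]
    · rw [Set.indicator_of_notMem hω]
      have h3 : W w0 (1 / (p : ℝ)) N y ω ≤ 0 := not_lt.mp hω
      nlinarith [mul_self_nonneg (W w0 (1 / (p : ℝ)) N y ω)]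
  have hint1 : IntegrableOn (W w0 (1 / (p : ℝ)) N y) (cyl S T) (perc (20 + 1) p) :=
    (integrable_W p N y).integrableOn
  have hint2 : IntegrableOn (fun ω => (1 / 194) *
      (W w0 (1 / (p : ℝ)) N y ω * W w0 (1 / (p : ℝ)) N y ω)) (cyl S T) (perc (20 + 1) p) :=
    ((integrable_WW p N y y).const_mul _).integrableOn
  have hint3 : IntegrableOn (X.indicator (fun _ => (97 / 2 : ℝ))) (cyl S T)
      (perc (20 + 1) p) :=
    ((integrable_const _).indicator hXm).integrableOn
  have h4 := setIntegral_mono hint1 (hint2.add hint3) hpt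
  rw [h1] at h4
  have h5 : ∫ ω in cyl S T, ((fun ω => (1 / 194) *
      (W w0 (1 / (p : ℝ)) N y ω * W w0 (1 / (p : ℝ)) N y ω)) +
        X.indicator (fun _ => (97 / 2 : ℝ))) ω ∂(perc (20 + 1) p) =
      (1 / 194) * (P * M w0 (1 / (p : ℝ)) N y y) +
        (perc (20 + 1) p).real (cyl S T ∩ X) * (97 / 2) := by
    rw [integral_add' hint2 hint3, integral_const_mul, h2, setIntegral_indicator hXm,
      setIntegral_const]
    simp [hP]
  rw [h5] at h4
  have h6 : P * M w0 (1 / (p : ℝ)) N y y ≤ P * 97 := mul_le_mul_of_nonneg_left hM hP0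
  linarith

/-- Survival: if `y` is reached by open edges of the cylinder then the cluster of the origin
is infinite with probability at least `P(cyl)/97` on the cylinder. -/
theorem survival (p : unitInterval) (hp : (10 : ℝ) / 213 ≤ p) (y : V (20 + 1))
    (S T : Finset (Edge (20 + 1))) (hST : Disjoint S T) (hS : Below S y) (hT : Below T y)
    (hy : ∀ ω ∈ cyl S T, y ∈ clusterV ω) :
    ((p : ℝ) ^ S.card * (1 - (p : ℝ)) ^ T.card) / 97 ≤
      (perc (20 + 1) p).real (cyl S T ∩ infCluster (20 + 1)) := by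
  have hp0 : (0 : ℝ) < p := lt_of_lt_of_le (by norm_num) hp
  have hβ0 : (0 : ℝ) ≤ 1 / (p : ℝ) := by positivity
  have hsub : ∀ N : ℕ, cyl S T ∩ {ω | 0 < W w0 (1 / (p : ℝ)) N y ω} ⊆
      cyl S T ∩ reachLev (lev y + N) := by
    rintro N ω ⟨h1, h2⟩
    refine ⟨h1, ?_⟩
    obtain ⟨z, hz, hlev⟩ := exists_reach_of_W_pos w0_nonneg hβ0 N ω y h2
    refine ⟨z, ?_, le_of_eq hlev.symm⟩
    exact (show Relation.ReflTransGen (OpenAdj ω) 0 y from hy ω h1).trans hz
  have hanti : Antitone (fun N : ℕ => cyl S T ∩ reachLev (a := 20) (lev y + N)) := by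
    intro N N' hNN ω hω
    obtain ⟨h1, z, hz, hlev⟩ := hω
    refine ⟨h1, z, hz, le_trans ?_ hlev⟩
    have : (N : ℤ) ≤ N' := by exact_mod_cast hNN
    linarith
  have hlim := tendsto_measure_iInter_atTop (μ := perc (20 + 1) p)
    (s := fun N : ℕ => cyl S T ∩ reachLev (a := 20) (lev y + N))
    (fun N => ((measurableSet_cyl S T).inter (measurableSet_reachLev _)).nullMeasurableSet)
    hanti ⟨0, measure_ne_top _ _⟩
  have hlim' : Filter.Tendsto (fun N : ℕ => (perc (20 + 1) p).real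
      (cyl S T ∩ reachLev (a := 20) (lev y + N))) Filter.atTop
      (nhds ((perc (20 + 1) p).real (⋂ N : ℕ, cyl S T ∩ reachLev (a := 20) (lev y + N)))) :=
    (ENNReal.tendsto_toReal (measure_ne_top _ _)).comp hlim
  have hge : ((p : ℝ) ^ S.card * (1 - (p : ℝ)) ^ T.card) / 97 ≤
      (perc (20 + 1) p).real (⋂ N : ℕ, cyl S T ∩ reachLev (a := 20) (lev y + N)) := by
    refine ge_of_tendsto' hlim' fun N => ?_
    exact (pos_lower p hp N y S T hST hS hT).trans (measureReal_mono (hsub N))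
  refine hge.trans (measureReal_mono ?_)
  rw [← Set.inter_iInter]
  exact Set.inter_subset_inter_right _ (iInter_reachLev_subset _)

end Pool.Agent.H96Perc
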